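import Mathlib

/-!
# Project SL (MP_ebae08_nt): pairwise coprime sumsets with `n / (log n) ^ ω(n)` elements up to `n`, infinitely often

Statements of the parts.
-/

set_option autoImplicit false

open Finset Filter Topology

namespace Pool.Agent.L7h48.SL

/-- hypotheses on the forms `a i * n + b i`, `i < K` (a copy of `Pool.Agent.H361R2.Inf.GoodForms`) -/
structure GForms (K : ℕ) (a b : ℕ → ℕ) : Prop where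
  ha : ∀ i < K, 1 ≤ a i
  hb : ∀ i < K, 1 ≤ b i
  ne : ∀ i < K, ∀ j < K, i ≠ j → a i * b j ≠ a j * b i
  adm : ∀ p : ℕ, p.Prime → ∃ n : ℕ, ¬ p ∣ n ∧ ∀ i < K, ¬ p ∣ a i * n + b i

open Classical in
/-- weights: total mass at most `2`, every block of forms contains a prime with weight at
least `c`; the squares of the weights have a small sum -/
def FBL (off : ℕ → ℕ) (c : ℝ) : Prop := ∀ (J : ℕ) (a b : ℕ → ℕ), GForms (off J) a b →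
  ∃ (mu : ℝ → ℕ → ℝ) (Z : ℝ → ℝ) (C : ℕ), ∀ᶠ x : ℝ in atTop, 0 < Z x ∧
    (∀ n ∈ Icc 1 ⌊x⌋₊, 0 ≤ mu x n) ∧
    ∑ n ∈ Icc 1 ⌊x⌋₊, mu x n ^ 2 ≤ (Real.log x) ^ C * (Z x ^ 2 / x) ∧
    ∑ n ∈ Icc 1 ⌊x⌋₊, mu x n ≤ 2 * Z x ∧
    ∀ t < J, c * Z x ≤ ∑ n ∈ (Icc 1 ⌊x⌋₊).filter
      (fun n => ∃ i ∈ Ico (off t) (off (t + 1)), (a i * n + b i).Prime), mu x n

/-- FBL for some blocks -/
def S_FBL : Prop := ∃ (off : ℕ → ℕ), StrictMono off ∧ off 0 = 0 ∧ FBL off (1 / 200)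

/-- MOM: moments of `ρ ^ ω(n)` -/
def S_MOM : Prop := ∀ ρ : ℝ, 1 ≤ ρ → ∃ C : ℕ, ∀ᶠ Y : ℕ in atTop,
  ∑ m ∈ Icc 1 Y, ρ ^ m.primeFactors.card ≤ Y * (Real.log Y) ^ C

/-- MOM2: the same for a product of linear forms (and `n` itself) -/
def S_MOM2 : Prop := ∀ (k : ℕ) (a b : Fin k → ℕ), (∀ i, 1 ≤ a i) → (∀ i, 1 ≤ b i) → ∀ ρ : ℝ, 1 ≤ ρ →
  ∃ C : ℕ, ∀ᶠ x : ℝ in atTop,
    ∑ n ∈ Icc 1 ⌊x⌋₊, ρ ^ (n * ∏ i, (a i * n + b i)).primeFactors.card ≤ x * (Real.log x) ^ C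

open Classical in
/-- GR: greedy choice of residue classes (one for each prime of `P`) that hit few elements of finitely many sets -/
def S_GR : Prop := ∀ (K : ℕ) (P : Finset ℕ), (∀ p ∈ P, p.Prime ∧ 6 * K + 6 ≤ p) →
  ∀ (𝒯 : Finset (Finset ℕ)), 𝒯.card ≤ K →
  ∃ al : ℕ → ℕ, (∀ p ∈ P, 1 ≤ al p ∧ 2 * al p < p) ∧
    ∀ T ∈ 𝒯, (T.card : ℝ) * ∏ p ∈ P, (1 - 3 * (K : ℝ) / p) ≤
      ((T.filter (fun b => ∀ p ∈ P, ¬ p ∣ b + al p)).card : ℝ)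

/-- PB: lower bound for the product over the primes -/
def S_PB : Prop := ∀ K : ℕ, ∃ (c : ℝ) (M : ℕ), 0 < c ∧ ∀ N N' : ℕ, 6 * K + 6 ≤ N → 3 ≤ N' →
  c / (Real.log N') ^ M ≤ ∏ p ∈ (Ioc N N').filter Nat.Prime, (1 - 3 * (K : ℝ) / p)

/-- CS: a set of large weight is large -/
def S_CS : Prop := ∀ (X : ℕ) (mu : ℕ → ℝ) (Z L θ : ℝ), 1 ≤ X → 0 < Z → 0 ≤ L → 0 ≤ θ →
  (∀ n ∈ Icc 1 X, 0 ≤ mu n) → ∑ n ∈ Icc 1 X, mu n ^ 2 ≤ L * (Z ^ 2 / X) →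
  ∀ T ⊆ Icc 1 X, θ * Z ≤ ∑ n ∈ T, mu n → θ ^ 2 * X ≤ L * (T.card : ℝ)

/-- the state of the construction: classes `al p`, `v p` for the primes `p ≤ N`, shifts `h j` for `j < off i` -/
structure St where
  N : ℕ
  al : ℕ → ℕ
  v : ℕ → ℕ
  h : ℕ → ℕ

/-- the invariants after stage `i` -/
structure Inv (off : ℕ → ℕ) (i : ℕ) (s : St) : Prop where
  big : 6 * 2 ^ off (i + 1) + 6 ≤ s.N
  i1 : ∀ p, p.Prime → p ≤ s.N → ¬ p ∣ s.v p + s.al p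
  i2 : ∀ p, p.Prime → p ≤ s.N → ∀ j < off i, ¬ p ∣ s.v p + s.h j
  inj : ∀ j < off i, ∀ k < off i, s.h j = s.h k → j = k
  le : ∀ j < off i, s.h j ≤ s.N

open Classical in
/-- what one stage gives: `n` is the height, `w` the weights -/
structure Step (off : ℕ → ℕ) (c : ℝ) (om : ℕ → ℝ) (i : ℕ) (s s' : St) (n : ℕ) (w : ℕ → ℝ) : Prop where
  alExt : ∀ p ≤ s.N, s'.al p = s.al p
  alNew : ∀ p, p.Prime → s.N < p → p ≤ s'.N → 1 ≤ s'.al p ∧ 2 * s'.al p < p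
  hExt : ∀ j < off i, s'.h j = s.h j
  hNew : ∀ j, off i ≤ j → j < off (i + 1) → s.N < s'.h j ∧
    ∀ p, p.Prime → p ≤ s.N → s'.h j ≡ s.al p [MOD p]
  lt : s.N < n ∧ 2 * n ≤ s'.N
  w0 : ∀ b, 0 ≤ w b
  wsupp : ∀ b, w b ≠ 0 → s.N < b ∧ b ≤ n
  wtot : ∑ b ∈ range (n + 1), w b ≤ 2
  wblk : ∀ t < i + 1, c ≤ ∑ b ∈ (range (n + 1)).filter
    (fun b => ∃ j ∈ Ico (off t) (off (t + 1)), (b + s'.h j).Prime), w b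
  cnt : ∀ F ⊆ range (off (i + 1)),
    1 / ((i : ℝ) + 2) ≤ ∑ b ∈ (range (n + 1)).filter (fun b => ∀ j ∈ F, (b + s'.h j).Prime), w b →
    ∃ T : Finset ℕ, (∀ b ∈ T, s.N < b ∧ b ≤ n ∧ (∀ j ∈ F, (b + s'.h j).Prime) ∧
      ∀ p, p.Prime → p ≤ s'.N → ¬ p ∣ b + s'.al p) ∧
      ∀ m : ℕ, n ≤ m → m ≤ 2 * n → (m : ℝ) / (Real.log m) ^ (om m) ≤ T.card

/-- ADM: the forms of a stage are good -/
def S_ADM : Prop := ∀ (off : ℕ → ℕ), StrictMono off → off 0 = 0 → ∀ (i : ℕ) (s : St), Inv off i s →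
  ∃ (Q u : ℕ) (h' : ℕ → ℕ), s.N < Q ∧ 1 ≤ u ∧ (∀ p, p.Prime → p ≤ s.N → p ∣ Q ∧ u ≡ s.v p [MOD p]) ∧
    (∀ j < off i, h' j = s.h j) ∧
    (∀ j, off i ≤ j → j < off (i + 1) → s.N < h' j ∧ ∀ p, p.Prime → p ≤ s.N → h' j ≡ s.al p [MOD p]) ∧
    (∀ j < off (i + 1), ∀ k < off (i + 1), h' j = h' k → j = k) ∧
    (∀ p, p.Prime → p ≤ s.N → ∀ j < off (i + 1), ¬ p ∣ s.v p + h' j) ∧
    GForms (off (i + 1)) (fun _ => Q) (fun j => u + h' j)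

/-- VN: the new classes `v p` -/
def S_VN : Prop := ∀ (K : ℕ) (h al : ℕ → ℕ) (p : ℕ), p.Prime → K + 1 < p →
  ∃ v : ℕ, ¬ p ∣ v + al p ∧ ∀ j < K, ¬ p ∣ v + h j

/-- NUM: the numerical choice of the height `X` -/
def S_NUM : Prop := ∀ (om : ℕ → ℝ), Tendsto om atTop atTop → ∀ (Q u C M : ℕ) (c θ : ℝ), 1 ≤ Q → 0 < c → 0 < θ →
  ∀ᶠ X : ℕ in atTop, ∀ m : ℕ, Q * X + u ≤ m → m ≤ 2 * (Q * X + u) →
    (m : ℝ) / (Real.log m) ^ (om m) ≤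
      θ ^ 2 * X / (Real.log X) ^ C * (c / (Real.log ((4 * (Q * X + u) : ℕ) : ℝ)) ^ M)

/-- STEP: one stage -/
def S_STEP : Prop := ∀ (off : ℕ → ℕ), StrictMono off → off 0 = 0 → ∀ c : ℝ, 0 < c → FBL off c →
  ∀ (om : ℕ → ℝ), Tendsto om atTop atTop → ∀ (i : ℕ) (s : St), Inv off i s →
  ∃ (s' : St) (n : ℕ) (w : ℕ → ℝ), Inv off (i + 1) s' ∧ Step off c om i s s' n w

/-- SEQ: all stages -/
def S_SEQ : Prop := ∀ (off : ℕ → ℕ), StrictMono off → off 0 = 0 → ∀ c : ℝ, 0 < c → FBL off c →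
  ∀ (om : ℕ → ℝ), Tendsto om atTop atTop →
  ∃ (s : ℕ → St) (n : ℕ → ℕ) (w : ℕ → ℕ → ℝ), ∀ i, Inv off i (s i) ∧ Step off c om i (s i) (s (i + 1)) (n i) (w i)

open Classical in
/-- the outcome of the construction in terms of the limits of the sequences -/
structure Out (off : ℕ → ℕ) (om : ℕ → ℝ) (N n : ℕ → ℕ) (al h : ℕ → ℕ) (w : ℕ → ℕ → ℝ) : Prop where
  lt : ∀ i, N i < n i ∧ 2 * n i ≤ N (i + 1)
  hle : ∀ i, ∀ j < off i, h j ≤ N i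
  hinj : ∀ j k, h j = h k → j = k
  hmod : ∀ i, ∀ j, off i ≤ j → ∀ p, p.Prime → p ≤ N i → h j ≡ al p [MOD p]
  cnt : ∀ i, ∀ F ⊆ range (off (i + 1)),
    1 / ((i : ℝ) + 2) ≤ ∑ b ∈ (range (n i + 1)).filter (fun b => ∀ j ∈ F, (b + h j).Prime), w i b →
    ∃ T : Finset ℕ, (∀ b ∈ T, N i < b ∧ b ≤ n i ∧ (∀ j ∈ F, (b + h j).Prime) ∧
      ∀ p, p.Prime → ¬ p ∣ b + al p) ∧
      ∀ m : ℕ, n i ≤ m → m ≤ 2 * n i → (m : ℝ) / (Real.log m) ^ (om m) ≤ T.card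

open Classical in
/-- OUT -/
def S_OUT : Prop := ∀ (off : ℕ → ℕ), StrictMono off → off 0 = 0 → ∀ c : ℝ, 0 < c → FBL off c →
  ∀ (om : ℕ → ℝ), Tendsto om atTop atTop →
  ∃ (N n al h : ℕ → ℕ) (w : ℕ → ℕ → ℝ), Out off om N n al h w ∧
    (∀ i b, 0 ≤ w i b) ∧ (∀ i b, w i b ≠ 0 → N i < b ∧ b ≤ n i) ∧ (∀ i, ∑ b ∈ range (n i + 1), w i b ≤ 2) ∧
    ∀ i, ∀ t < i + 1, c ≤ ∑ b ∈ (range (n i + 1)).filter
      (fun b => ∃ j ∈ Ico (off t) (off (t + 1)), (b + h j).Prime), w i b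

open Classical in
/-- LIM: the limit of the weights and the infinite set of indices -/
def S_LIM : Prop := ∀ (off : ℕ → ℕ), StrictMono off → off 0 = 0 → ∀ c : ℝ, 0 < c →
  ∀ (N n h : ℕ → ℕ) (w : ℕ → ℕ → ℝ), (∀ i, i ≤ N i) →
    (∀ i b, 0 ≤ w i b) → (∀ i b, w i b ≠ 0 → N i < b ∧ b ≤ n i) → (∀ i, ∑ b ∈ range (n i + 1), w i b ≤ 2) →
    (∀ i, ∀ t < i + 1, c ≤ ∑ b ∈ (range (n i + 1)).filter
      (fun b => ∃ j ∈ Ico (off t) (off (t + 1)), (b + h j).Prime), w i b) →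
    ∃ I : Set ℕ, I.Infinite ∧ ∀ F : Finset ℕ, (∀ j ∈ F, j ∈ I) → ∃ᶠ i : ℕ in atTop,
      1 / ((i : ℝ) + 2) ≤ ∑ b ∈ (range (n i + 1)).filter (fun b => ∀ j ∈ F, (b + h j).Prime), w i b

/-- CHOOSE: the final sets -/
def S_FINAL : Prop := ∀ (off : ℕ → ℕ), StrictMono off → off 0 = 0 → ∀ (om : ℕ → ℝ),
  ∀ (N n al h : ℕ → ℕ) (w : ℕ → ℕ → ℝ), Out off om N n al h w →
    ∀ I : Set ℕ, I.Infinite → (∀ F : Finset ℕ, (∀ j ∈ F, j ∈ I) → ∃ᶠ i : ℕ in atTop,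
      1 / ((i : ℝ) + 2) ≤ ∑ b ∈ (range (n i + 1)).filter (fun b => ∀ j ∈ F, (b + h j).Prime), w i b) →
    ∃ A B : Set ℕ, A.Infinite ∧ B.Infinite ∧
      (∀ a ∈ A, ∀ b ∈ B, ∀ a' ∈ A, ∀ b' ∈ B, a + b ≠ a' + b' → Nat.Coprime (a + b) (a' + b')) ∧
      ∃ᶠ m : ℕ in atTop, (m : ℝ) / (Real.log m) ^ (om m) ≤
        (({s : ℕ | ∃ a ∈ A, ∃ b ∈ B, s = a + b} ∩ Set.Icc 1 m).ncard : ℝ)

end Pool.Agent.L7h48.SL
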