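import Mathlib
import Pool.Agent.H361R2.InfA4
import Pool.Agent.H361R2.InfA5
import Pool.Agent.H361R2.InfMain
import Pool.Agent.L7h48.SL.Stm

/-!
# Project SL: the sieve with a bound for the sum of the squares of the weights

Adapted from `Pool.Agent.H361R2.InfA4`, `Pool.Agent.H361R2.InfA5`.
-/

namespace Pool.Agent.L7h48.SL

open Finset Filter Topology
open Pool.Agent.H361R2.Inf
open Pool.Agent.H410R2 hiding GP GP_prof GP_cut_some GP_cut_none GP_lip gg_pos gg_le_one gg_anti ee_bound ee_nonneg gg_lip LB_gg LB_ee Sums exists_sums yx wx wxi Br sum_GP_none sum_GP_some sum_GP_some_ee sum_GP_some_one sum_GPr_none sum_GPr_some S1_final QI_final S2_final w_abs_le wmax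
open Pool.Agent.H361R2
open Pool.Agent.H361R2.GM (SPar)

variable {k : ℕ}

/-- A4 with the conclusion of A2 as hypothesis -/
theorem sieve_outL_aux (hM2 : S_MOM2) (B : BPar k) (h1 : ∀ i, 0 < (B.Q i).I1) (h2 : ∀ i, 0 < (B.Q i).I2)
    (hE : ∃ ε : ℝ, 0 < ε ∧ ε < 1 / 10 ∧ (∀ i, ε < (B.Q i).I1) ∧ (∀ i, ε < (B.Q i).I2) ∧
      (∀ i, 0 < BrB B i ε) ∧
      (1 / 3 + ε) * ∏ i, ((B.Q i).I2 + ε) ≤ 3 / 2 * (1 / 3 * ∏ i, (B.Q i).I2) ∧
      (∀ i, 9 / 10 * ((B.Q i).I1 ^ 2 / (B.Q i).I2 * (1 / 3 * ∏ l, (B.Q l).I2)) ≤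
        (1 - ε) ^ 3 * ((B.Q i).I1 - ε) ^ 2 * BrB B i ε) ∧
      ∀ i j, i ≠ j →
        (1 / 3 + ε) * (∏ l ∈ (univ.erase i).erase j, ((B.Q l).I2 + ε)) *
          (((1 / 2 + ε) / (1 / 2 - ε) ^ 2) ^ 2 * ((B.Q i).I1 + ε) ^ 2 * ((B.Q j).I1 + ε) ^ 2) ≤
        5 * (((B.Q i).I1 ^ 2 / (B.Q i).I2) * ((B.Q j).I1 ^ 2 / (B.Q j).I2) *
          (1 / 3 * ∏ l, (B.Q l).I2)))
    (hpair : ∀ (a b : Fin k → ℕ) (D v : ℕ), Ctx a b D v → ∀ ε : ℝ, 0 < ε → ε < 1 / 10 →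
      (∀ᶠ x : ℝ in atTop, SumsB B D ε (k + 1) (Lx x) (Px D x)) →
      ∀ᶠ x : ℝ in atTop, ∀ i j : Fin k, i ≠ j →
        ∑ n ∈ (Icc 1 ⌊x⌋₊).filter
          (fun n => n ≡ v [MOD (WW D)] ∧ (a i * n + b i).Prime ∧ (a j * n + b j).Prime),
            Real.log (x / n) * (wxb B a b D x n) ^ 2 ≤
        Q0 k D x * ((1 / 3 + ε) * (∏ l ∈ (univ.erase i).erase j, ((B.Q l).I2 + ε)) *
          (((1 / 2 + ε) / (1 / 2 - ε) ^ 2) ^ 2 * ((B.Q i).I1 + ε) ^ 2 * ((B.Q j).I1 + ε) ^ 2)) + x)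
    (a b : Fin k → ℕ) (ha : ∀ i, 1 ≤ a i) (hb : ∀ i, 1 ≤ b i)
    (hnp : ∀ i j, i ≠ j → a i * b j ≠ a j * b i)
    (hadm : ∀ p : ℕ, p.Prime → ∃ n : ℕ, ¬ p ∣ n ∧ ∀ i, ¬ p ∣ a i * n + b i) :
    ∃ (mu : ℝ → ℕ → ℝ) (Z : ℝ → ℝ) (Ce : ℕ), ∀ᶠ x : ℝ in atTop, 0 < Z x ∧
      (∀ n ∈ Icc 1 ⌊x⌋₊, 0 ≤ mu x n) ∧
      ∑ n ∈ Icc 1 ⌊x⌋₊, mu x n ^ 2 ≤ (Real.log x) ^ Ce * (Z x ^ 2 / x) ∧
      ∑ n ∈ Icc 1 ⌊x⌋₊, mu x n ≤ 2 * Z x ∧
      (∀ i : Fin k, 1 / 5 * ((B.Q i).I1 ^ 2 / (B.Q i).I2) * Z x ≤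
        ∑ n ∈ (Icc 1 ⌊x⌋₊).filter (fun n => (a i * n + b i).Prime), mu x n) ∧
      ∀ i j : Fin k, i ≠ j →
        ∑ n ∈ (Icc 1 ⌊x⌋₊).filter
          (fun n => (a i * n + b i).Prime ∧ (a j * n + b j).Prime), mu x n ≤
          6 * (((B.Q i).I1 ^ 2 / (B.Q i).I2) * ((B.Q j).I1 ^ 2 / (B.Q j).I2) * Z x) := by
  obtain ⟨ε, hε, hε1, hI1, hI2, hBr, hA, hbet, hpr⟩ := hE
  obtain ⟨D2, hctx⟩ := GM.exists_ctx Pool.Agent.H398R2.ariSetup a b ha hb hnp hadm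
  obtain ⟨D3, hκ⟩ := GM.hκ_of Pool.Agent.H361R2.tailBound k ε hε
  obtain ⟨D4, hov⟩ := GM.hovl_of Pool.Agent.H361R2.tailBound k ε hε
  obtain ⟨D5, hsum⟩ := sumsB_ev B Pool.Agent.H399R2.oneDim (k + 1) ε hε
  set D := D2 + D3 + D4 + D5 with hD
  obtain ⟨v, hc⟩ := hctx D (by omega)
  have hκ := hκ D (by omega)
  have hov := hov D (by omega)
  have hsum := hsum D (by omega)
  set Z0 : ℝ := 1 / 3 * ∏ l, (B.Q l).I2 with hZ0
  have hZ0p : 0 < Z0 := by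
    have : 0 < ∏ l, (B.Q l).I2 := Finset.prod_pos fun l _ => h2 l
    positivity
  set ρ : Fin k → ℝ := fun i => (B.Q i).I1 ^ 2 / (B.Q i).I2 with hρ
  have hρp : ∀ i, 0 < ρ i := fun i => by
    have := h1 i
    have := h2 i
    simp only [hρ]
    positivity
  obtain ⟨C, hC0, hFC⟩ := fcb B a b D v hc
  have hFA := fab B a b D v hc (1 / 4) (by norm_num)
  have hS2 := S2_finalB B Pool.Agent.H732R2.s2Approx Pool.Agent.H361R2.s2Model bvap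
    Pool.Agent.H732R2.pntLog Pool.Agent.H361R2.prodBound Pool.Agent.H361R2.omegaBound hc ε hε
    (by linarith) hI1 hI2 hBr hκ hov hsum
  have hP := hpair a b D v hc ε hε hε1 hsum
  have hq3 : ∀ᶠ x : ℝ in atTop, ∀ i : Fin k, 3 / (ρ i * Z0) * x ≤ Q0 k D x :=
    Filter.eventually_all.2 fun i => GM.Q0_large k D hc.hW hc.BDpos _
  have hq4 : ∀ᶠ x : ℝ in atTop, ∀ i j : Fin k, 1 / (ρ i * ρ j * Z0) * x ≤ Q0 k D x :=
    Filter.eventually_all.2 fun i => Filter.eventually_all.2 fun j =>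
      GM.Q0_large k D hc.hW hc.BDpos _
  obtain ⟨C1, hC1, m1, hPr⟩ := prodIx_le Pool.Agent.H361R2.prodBound (2 * ((k + 1 : ℕ) : ℝ)) (by positivity) D
  obtain ⟨C3, hMom⟩ := hM2 k a b ha hb 16 (by norm_num)
  refine ⟨fun x n => if n ≡ v [MOD (WW D)] then Real.log (x / n) * (wxb B a b D x n) ^ 2 else 0,
    fun x => Q0 k D x * Z0, 2 + 4 * m1 + C3 + 1, ?_⟩
  filter_upwards [hFA, hS2, hFC, hP, hsum, E0_le Pool.Agent.H361R2.prodBound k D,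
    GM.Q0_large k D hc.hW hc.BDpos (2 / Z0), hq3, hq4,
    hPr, hMom, Real.tendsto_log_atTop.eventually_ge_atTop (C1 ^ 4),
    Real.tendsto_log_atTop.eventually_ge_atTop ((1 + C / 5) / (16 / 1000)),
    eventually_gt_atTop (1 : ℝ)]
    with x hFA hS2 hFC hP hsum hE0 hq1 hq3 hq4 hPr hMom hlC1 hlC hx
  have hx0 : 0 < x := by linarith
  have hlx : 0 < Real.log x := Real.log_pos hx
  set Z := Q0 k D x * Z0 with hZ
  have hZ2 : 2 * x ≤ Z := by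
    have := mul_le_mul_of_nonneg_right hq1 hZ0p.le
    calc 2 * x = 2 / Z0 * x * Z0 := by field_simp
      _ ≤ _ := this
  have hZpos : 0 < Z := by linarith
  have hNm : ∀ n ∈ Icc 1 ⌊x⌋₊, 1 ≤ n ∧ (n : ℝ) ≤ x := by
    intro n hn
    rw [Finset.mem_Icc] at hn
    exact ⟨hn.1, (Nat.cast_le.2 hn.2).trans (Nat.floor_le hx0.le)⟩
  have hlogn : ∀ n ∈ Icc 1 ⌊x⌋₊, 0 ≤ Real.log (x / n) ∧ Real.log (x / n) ≤ Real.log x := by
    intro n hn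
    obtain ⟨h1, h2⟩ := hNm n hn
    have hn1 : (1 : ℝ) ≤ n := by exact_mod_cast h1
    have hn0 : (0 : ℝ) < n := by linarith
    constructor
    · apply Real.log_nonneg
      rw [le_div_iff₀ hn0]
      linarith
    · apply Real.log_le_log (by positivity)
      exact div_le_self hx0.le hn1
  set u : ℕ → ℝ := fun n => Real.log (x / n) * (wxb B a b D x n) ^ 2 with hu
  have hu0 : ∀ n ∈ Icc 1 ⌊x⌋₊, 0 ≤ u n := fun n hn => mul_nonneg (hlogn n hn).1 (sq_nonneg _)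
  have hu2 : ∀ n ∈ Icc 1 ⌊x⌋₊, u n ^ 2 ≤ (Real.log x) ^ 2 * (C1 * (Real.log x) ^ m1) ^ 4 *
      16 ^ (n * ∏ i, (a i * n + b i)).primeFactors.card := by
    intro n hn
    obtain ⟨h1, h2⟩ := hNm n hn
    have h4 := hlogn n hn
    have h3 := (Pool.Agent.H361R2.Inf.w_abs_le B hc x hx n h1).1
    have hNN : NN a b n = n * ∏ i, (a i * n + b i) := by
      unfold NN
      rw [Fintype.prod_option]
      rfl
    rw [hNN] at h3
    set om := (n * ∏ i, (a i * n + b i)).primeFactors.card with hom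
    have hP0 : 0 ≤ ∏ t : Ix D x, (1 + 2 * ((k + 1 : ℕ) : ℝ) / (prx D x t : ℝ)) :=
      Finset.prod_nonneg fun t _ => by positivity
    have h5 : |wxb B a b D x n| ≤ (C1 * (Real.log x) ^ m1) * 2 ^ om :=
      h3.trans (mul_le_mul_of_nonneg_right hPr (by positivity))
    have h6 : (wxb B a b D x n) ^ 4 ≤ ((C1 * (Real.log x) ^ m1) * 2 ^ om) ^ 4 := by
      have h7 : (wxb B a b D x n) ^ 4 = |wxb B a b D x n| ^ 4 := by
        rw [← abs_pow, abs_of_nonneg (by positivity)]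
      rw [h7]
      exact pow_le_pow_left₀ (abs_nonneg _) h5 4
    have h8 : u n ^ 2 = (Real.log (x / n)) ^ 2 * (wxb B a b D x n) ^ 4 := by
      simp only [hu]
      ring
    rw [h8]
    have h9 : (Real.log (x / n)) ^ 2 ≤ (Real.log x) ^ 2 := pow_le_pow_left₀ h4.1 h4.2 2
    calc (Real.log (x / n)) ^ 2 * (wxb B a b D x n) ^ 4
        ≤ (Real.log x) ^ 2 * ((C1 * (Real.log x) ^ m1) * 2 ^ om) ^ 4 :=
          mul_le_mul h9 h6 (by positivity) (by positivity)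
      _ = (Real.log x) ^ 2 * (C1 * (Real.log x) ^ m1) ^ 4 * 16 ^ om := by
          have h10 : (16 : ℝ) ^ om = ((2 : ℝ) ^ om) ^ 4 := by
            rw [← pow_mul, mul_comm, pow_mul]
            norm_num
          rw [h10]
          ring
  have hL2 : ∑ n ∈ Icc 1 ⌊x⌋₊, u n ^ 2 ≤ (Real.log x) ^ (2 + 4 * m1 + C3 + 1) * (Z ^ 2 / x) := by
    have hxZ : x ≤ Z ^ 2 / x := by
      rw [le_div_iff₀ hx0]
      nlinarith
    calc ∑ n ∈ Icc 1 ⌊x⌋₊, u n ^ 2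
        ≤ ∑ n ∈ Icc 1 ⌊x⌋₊, (Real.log x) ^ 2 * (C1 * (Real.log x) ^ m1) ^ 4 *
          16 ^ (n * ∏ i, (a i * n + b i)).primeFactors.card := Finset.sum_le_sum hu2
      _ = (Real.log x) ^ 2 * (C1 * (Real.log x) ^ m1) ^ 4 *
          ∑ n ∈ Icc 1 ⌊x⌋₊, (16 : ℝ) ^ (n * ∏ i, (a i * n + b i)).primeFactors.card := by
          rw [Finset.mul_sum]
      _ ≤ (Real.log x) ^ 2 * (C1 * (Real.log x) ^ m1) ^ 4 * (x * (Real.log x) ^ C3) :=
          mul_le_mul_of_nonneg_left hMom (by positivity)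
      _ = C1 ^ 4 * ((Real.log x) ^ (2 + 4 * m1 + C3) * x) := by ring
      _ ≤ Real.log x * ((Real.log x) ^ (2 + 4 * m1 + C3) * x) :=
          mul_le_mul_of_nonneg_right hlC1 (by positivity)
      _ = (Real.log x) ^ (2 + 4 * m1 + C3 + 1) * x := by ring
      _ ≤ _ := mul_le_mul_of_nonneg_left hxZ (by positivity)
  refine ⟨hZpos, ?_, ?_, ?_, ?_, ?_⟩
  · intro n hn
    change 0 ≤ (if n ≡ v [MOD (WW D)] then u n else 0)
    split_ifs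
    · exact hu0 n hn
    · exact le_rfl
  · change ∑ n ∈ Icc 1 ⌊x⌋₊, (if n ≡ v [MOD (WW D)] then u n else 0) ^ 2 ≤ _ * (Z ^ 2 / x)
    refine le_trans (Finset.sum_le_sum fun n _ => ?_) hL2
    split_ifs
    · exact le_rfl
    · rw [zero_pow two_ne_zero]
      exact sq_nonneg _
  · change ∑ n ∈ Icc 1 ⌊x⌋₊, (if n ≡ v [MOD (WW D)] then u n else 0) ≤ 2 * Z
    rw [← Finset.sum_filter]
    have hS1 := S1_finalB B Pool.Agent.H361R2.s1Upper hc ε (k + 1) x hx hsum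
    refine hS1.trans ?_
    have hQ0 : 0 ≤ Q0 k D x := by
      by_contra hcon
      push Not at hcon
      have := mul_neg_of_neg_of_pos hcon hZ0p
      linarith
    have e1 : Q0 k D x * ((1 / 3 + ε) * ∏ i, ((B.Q i).I2 + ε)) ≤ 3 / 2 * Z := by
      calc Q0 k D x * ((1 / 3 + ε) * ∏ i, ((B.Q i).I2 + ε)) ≤ Q0 k D x * (3 / 2 * Z0) :=
            mul_le_mul_of_nonneg_left hA hQ0
        _ = 3 / 2 * Z := by rw [hZ]; ring
    have e2 : x ^ (1 / 2 : ℝ) ≤ x := by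
      calc x ^ (1 / 2 : ℝ) ≤ x ^ (1 : ℝ) := Real.rpow_le_rpow_of_exponent_le hx.le (by norm_num)
        _ = x := Real.rpow_one x
    linarith
  · intro i
    change 1 / 5 * ρ i * Z ≤ ∑ n ∈ (Icc 1 ⌊x⌋₊).filter (fun n => (a i * n + b i).Prime),
      (if n ≡ v [MOD (WW D)] then u n else 0)
    have e0 : ∑ n ∈ (Icc 1 ⌊x⌋₊).filter (fun n => (a i * n + b i).Prime),
        (if n ≡ v [MOD (WW D)] then u n else 0) =
        ∑ n ∈ (Icc 1 ⌊x⌋₊).filter (fun n => n ≡ v [MOD (WW D)] ∧ (a i * n + b i).Prime), u n := by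
      rw [← Finset.sum_filter, Finset.filter_filter]
      refine Finset.sum_congr (Finset.ext fun n => ?_) fun _ _ => rfl
      simp only [Finset.mem_filter]
      tauto
    rw [e0]
    set S := ∑ n ∈ (Icc 1 ⌊x⌋₊).filter (fun n => n ≡ v [MOD (WW D)] ∧ (a i * n + b i).Prime), u n
      with hS
    have e1 : Lx x * Q0 k D x * ((1 - ε) ^ 3 * ((B.Q i).I1 - ε) ^ 2 * BrB B i ε) - x ≤
        (Real.log x + C) * S + x ^ (3 / 4 : ℝ) := (hS2 i).trans (hFC i)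
    have hQ0 : 0 ≤ Q0 k D x := by
      by_contra hcon
      push Not at hcon
      have := mul_neg_of_neg_of_pos hcon hZ0p
      linarith
    have hLx : 0 ≤ Lx x := (Lx_pos hx).le
    have e2 : 216 / 1000 * Real.log x * (ρ i * Z) ≤
        Lx x * Q0 k D x * ((1 - ε) ^ 3 * ((B.Q i).I1 - ε) ^ 2 * BrB B i ε) := by
      calc 216 / 1000 * Real.log x * (ρ i * Z) = Lx x * Q0 k D x * (9 / 10 * (ρ i * Z0)) := by
            rw [hZ]
            unfold Lx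
            ring
        _ ≤ _ := mul_le_mul_of_nonneg_left (hbet i) (by positivity)
    have e3 : x ^ (3 / 4 : ℝ) ≤ x := by
      calc x ^ (3 / 4 : ℝ) ≤ x ^ (1 : ℝ) := Real.rpow_le_rpow_of_exponent_le hx.le (by norm_num)
        _ = x := Real.rpow_one x
    have e4 : 3 * x ≤ ρ i * Z := by
      have h5 : 0 < ρ i * Z0 := mul_pos (hρp i) hZ0p
      have := mul_le_mul_of_nonneg_right (hq3 i) h5.le
      calc 3 * x = 3 / (ρ i * Z0) * x * (ρ i * Z0) := by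
            have h5' := h5.ne'
            generalize ρ i * Z0 = y at h5' ⊢
            field_simp
        _ ≤ Q0 k D x * (ρ i * Z0) := this
        _ = ρ i * Z := by rw [hZ]; ring
    by_contra hcon
    push Not at hcon
    have e5 : (Real.log x + C) * S ≤ (Real.log x + C) * (1 / 5 * ρ i * Z) :=
      mul_le_mul_of_nonneg_left hcon.le (by linarith)
    have e6 : (1 + C / 5) ≤ 16 / 1000 * Real.log x := by
      rw [div_le_iff₀ (by norm_num)] at hlC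
      linarith
    have e7 : 0 < ρ i * Z := mul_pos (hρp i) hZpos
    have e8 : (1 + C / 5) * (ρ i * Z) ≤ 16 / 1000 * Real.log x * (ρ i * Z) :=
      mul_le_mul_of_nonneg_right e6 e7.le
    nlinarith
  · intro i j hij
    change ∑ n ∈ (Icc 1 ⌊x⌋₊).filter (fun n => (a i * n + b i).Prime ∧ (a j * n + b j).Prime),
      (if n ≡ v [MOD (WW D)] then u n else 0) ≤ 6 * (ρ i * ρ j * Z)
    have e0 : ∑ n ∈ (Icc 1 ⌊x⌋₊).filter
          (fun n => (a i * n + b i).Prime ∧ (a j * n + b j).Prime),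
        (if n ≡ v [MOD (WW D)] then u n else 0) =
        ∑ n ∈ (Icc 1 ⌊x⌋₊).filter (fun n => n ≡ v [MOD (WW D)] ∧ (a i * n + b i).Prime ∧
          (a j * n + b j).Prime), u n := by
      rw [← Finset.sum_filter, Finset.filter_filter]
      refine Finset.sum_congr (Finset.ext fun n => ?_) fun _ _ => rfl
      simp only [Finset.mem_filter]
      tauto
    rw [e0]
    refine (hP i j hij).trans ?_
    have hQ0 : 0 ≤ Q0 k D x := by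
      by_contra hcon
      push Not at hcon
      have := mul_neg_of_neg_of_pos hcon hZ0p
      linarith
    have e1 := mul_le_mul_of_nonneg_left (hpr i j hij) hQ0
    have e4 : x ≤ ρ i * ρ j * Z := by
      have h5 : 0 < ρ i * ρ j * Z0 := mul_pos (mul_pos (hρp i) (hρp j)) hZ0p
      have := mul_le_mul_of_nonneg_right (hq4 i j) h5.le
      calc x = 1 / (ρ i * ρ j * Z0) * x * (ρ i * ρ j * Z0) := by
            have h5' := h5.ne'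
            generalize ρ i * ρ j * Z0 = y at h5' ⊢
            field_simp
        _ ≤ Q0 k D x * (ρ i * ρ j * Z0) := this
        _ = ρ i * ρ j * Z := by rw [hZ]; ring
    have e5 : Q0 k D x * (5 * (ρ i * ρ j * Z0)) = 5 * (ρ i * ρ j * Z) := by rw [hZ]; ring
    have e6 : Q0 k D x * (5 * (((B.Q i).I1 ^ 2 / (B.Q i).I2) * ((B.Q j).I1 ^ 2 / (B.Q j).I2) *
          (1 / 3 * ∏ l, (B.Q l).I2))) = 5 * (ρ i * ρ j * Z) := e5
    rw [e6] at e1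
    linarith

/-- A4 : what the sieve gives -/
theorem sieve_outL (hM2 : S_MOM2) (B : BPar k) (h1 : ∀ i, 0 < (B.Q i).I1) (h2 : ∀ i, 0 < (B.Q i).I2)
    (h3 : ∀ i, (B.Q i).I2 ≤ (B.Q i).IE) (h4 : ∏ i, ((B.Q i).IE / (B.Q i).I2) ≤ Real.exp 2)
    (hpair : ∀ (a b : Fin k → ℕ) (D v : ℕ), Ctx a b D v → ∀ ε : ℝ, 0 < ε → ε < 1 / 10 →
      (∀ᶠ x : ℝ in atTop, SumsB B D ε (k + 1) (Lx x) (Px D x)) →
      ∀ᶠ x : ℝ in atTop, ∀ i j : Fin k, i ≠ j →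
        ∑ n ∈ (Icc 1 ⌊x⌋₊).filter
          (fun n => n ≡ v [MOD (WW D)] ∧ (a i * n + b i).Prime ∧ (a j * n + b j).Prime),
            Real.log (x / n) * (wxb B a b D x n) ^ 2 ≤
        Q0 k D x * ((1 / 3 + ε) * (∏ l ∈ (univ.erase i).erase j, ((B.Q l).I2 + ε)) *
          (((1 / 2 + ε) / (1 / 2 - ε) ^ 2) ^ 2 * ((B.Q i).I1 + ε) ^ 2 * ((B.Q j).I1 + ε) ^ 2)) + x)
    (a b : Fin k → ℕ) (ha : ∀ i, 1 ≤ a i) (hb : ∀ i, 1 ≤ b i)
    (hnp : ∀ i j, i ≠ j → a i * b j ≠ a j * b i)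
    (hadm : ∀ p : ℕ, p.Prime → ∃ n : ℕ, ¬ p ∣ n ∧ ∀ i, ¬ p ∣ a i * n + b i) :
    ∃ (mu : ℝ → ℕ → ℝ) (Z : ℝ → ℝ) (Ce : ℕ), ∀ᶠ x : ℝ in atTop, 0 < Z x ∧
      (∀ n ∈ Icc 1 ⌊x⌋₊, 0 ≤ mu x n) ∧
      ∑ n ∈ Icc 1 ⌊x⌋₊, mu x n ^ 2 ≤ (Real.log x) ^ Ce * (Z x ^ 2 / x) ∧
      ∑ n ∈ Icc 1 ⌊x⌋₊, mu x n ≤ 2 * Z x ∧
      (∀ i : Fin k, 1 / 5 * ((B.Q i).I1 ^ 2 / (B.Q i).I2) * Z x ≤
        ∑ n ∈ (Icc 1 ⌊x⌋₊).filter (fun n => (a i * n + b i).Prime), mu x n) ∧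
      ∀ i j : Fin k, i ≠ j →
        ∑ n ∈ (Icc 1 ⌊x⌋₊).filter
          (fun n => (a i * n + b i).Prime ∧ (a j * n + b j).Prime), mu x n ≤
          6 * (((B.Q i).I1 ^ 2 / (B.Q i).I2) * ((B.Q j).I1 ^ 2 / (B.Q j).I2) * Z x) :=
  sieve_outL_aux hM2 B h1 h2 (exists_eps B h1 h2 h3 h4) hpair a b ha hb hnp hadm

/-- A5 : `FBL` from A1, A3 and the conclusion of A4 (taken as hypothesis `hA4`) -/
theorem fbl_of (off : ℕ → ℕ) (Q : ℕ → SPar) (hoff : StrictMono off) (h0 : off 0 = 0)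
    (hQ : ∀ i, (Q i).c = 1 / 10 ∧ (Q i).lam = 10 ∧ 0 < (Q i).I1 ∧ 0 < (Q i).I2 ∧
      (Q i).I2 ≤ (Q i).IE)
    (hQ1 : ∀ t, 1 ≤ ∑ i ∈ Ico (off t) (off (t + 1)), (Q i).I1 ^ 2 / (Q i).I2)
    (hQ2 : ∀ N, ∏ i ∈ range (off N), ((Q i).IE / (Q i).I2) ≤ Real.exp 2)
    (hA4 : ∀ (k : ℕ) (B : BPar k), (∀ i, 0 < (B.Q i).I1) → (∀ i, 0 < (B.Q i).I2) →
      (∀ i, (B.Q i).I2 ≤ (B.Q i).IE) → (∏ i, ((B.Q i).IE / (B.Q i).I2) ≤ Real.exp 2) →
      ∀ (a b : Fin k → ℕ), (∀ i, 1 ≤ a i) → (∀ i, 1 ≤ b i) →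
      (∀ i j, i ≠ j → a i * b j ≠ a j * b i) →
      (∀ p : ℕ, p.Prime → ∃ n : ℕ, ¬ p ∣ n ∧ ∀ i, ¬ p ∣ a i * n + b i) →
      ∃ (mu : ℝ → ℕ → ℝ) (Z : ℝ → ℝ) (Ce : ℕ), ∀ᶠ x : ℝ in atTop, 0 < Z x ∧
        (∀ n ∈ Icc 1 ⌊x⌋₊, 0 ≤ mu x n) ∧
        ∑ n ∈ Icc 1 ⌊x⌋₊, mu x n ^ 2 ≤ (Real.log x) ^ Ce * (Z x ^ 2 / x) ∧
        ∑ n ∈ Icc 1 ⌊x⌋₊, mu x n ≤ 2 * Z x ∧
        (∀ i : Fin k, 1 / 5 * ((B.Q i).I1 ^ 2 / (B.Q i).I2) * Z x ≤
          ∑ n ∈ (Icc 1 ⌊x⌋₊).filter (fun n => (a i * n + b i).Prime), mu x n) ∧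
        ∀ i j : Fin k, i ≠ j →
          ∑ n ∈ (Icc 1 ⌊x⌋₊).filter
            (fun n => (a i * n + b i).Prime ∧ (a j * n + b j).Prime), mu x n ≤
            6 * (((B.Q i).I1 ^ 2 / (B.Q i).I2) * ((B.Q j).I1 ^ 2 / (B.Q j).I2) * Z x)) :
    FBL off (1 / 200) := by
  classical
  intro J a b hG
  obtain ⟨mu, Z, Ce, h⟩ := hA4 (off J)
    ⟨fun i => Q i, fun i => (hQ i).1, fun i => (hQ i).2.1⟩
    (fun i => (hQ i).2.2.1) (fun i => (hQ i).2.2.2.1) (fun i => (hQ i).2.2.2.2)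
    (by
      have := hQ2 J
      rwa [← Fin.prod_univ_eq_prod_range (fun i => (Q i).IE / (Q i).I2)] at this)
    (fun i => a i) (fun i => b i) (fun i => hG.ha i i.2) (fun i => hG.hb i i.2)
    (fun i j hij => hG.ne i i.2 j j.2 (fun e => hij (Fin.ext e)))
    (fun p hp => by
      obtain ⟨n, hn1, hn2⟩ := hG.adm p hp
      exact ⟨n, hn1, fun i => hn2 i i.2⟩)
  refine ⟨mu, Z, Ce, ?_⟩
  filter_upwards [h] with x hx
  obtain ⟨hZ, hmu, hL2, htot, hs, hp⟩ := hx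
  refine ⟨hZ, hmu, hL2, htot, fun t ht => ?_⟩
  have hlt : ∀ i ∈ Ico (off t) (off (t + 1)), i < off J := by
    intro i hi
    exact lt_of_lt_of_le (Finset.mem_Ico.mp hi).2 (hoff.monotone (Nat.succ_le_of_lt ht))
  have key := cs_block (Icc 1 ⌊x⌋₊) (mu x) hmu
    (Ico (off t) (off (t + 1))) (fun i n => (a i * n + b i).Prime) (Z x) hZ
    (fun i => (Q i).I1 ^ 2 / (Q i).I2)
    (fun i _ => (div_pos (pow_pos (hQ i).2.2.1 2) (hQ i).2.2.2.1).le)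
    (hQ1 t)
    (fun i hi => by
      have h1 := hs ⟨i, hlt i hi⟩
      refine le_trans h1 (le_of_eq ?_)
      refine Finset.sum_congr ?_ fun _ _ => rfl
      ext n
      simp only [Finset.mem_filter])
    (fun i hi j hj hij => by
      have h1 := hp ⟨i, hlt i hi⟩ ⟨j, hlt j hj⟩ (fun e => hij (Fin.mk.inj e))
      refine le_trans (le_of_eq ?_) h1
      refine Finset.sum_congr ?_ fun _ _ => rfl
      ext n
      simp only [Finset.mem_filter])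
  refine le_trans key (le_of_eq ?_)
  refine Finset.sum_congr ?_ fun _ _ => rfl
  ext n
  simp only [Finset.mem_filter]


/-- FBL for the blocks of `Pool.Agent.H361R2.Inf.exists_blocks` -/
theorem s_FBL (hM2 : S_MOM2) : S_FBL := by
  obtain ⟨off, Q, hoff, h0, hQ, hQ1, hQ2⟩ := exists_blocks
  refine ⟨off, hoff, h0, ?_⟩
  apply fbl_of off Q hoff h0 hQ hQ1 hQ2
  intro k B h1 h2 h3 h4 a b ha hb hnp hadm
  exact sieve_outL hM2 B h1 h2 h3 h4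
    (fun a b D v hc ε hε hε1 hS => pair_bound B h1 a b D v hc ε hε hε1 hS) a b ha hb hnp hadm

end Pool.Agent.L7h48.SL
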