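import Pool.Agent.L7h48.SL.Stm

/-!
# Project SL, part FINAL: the final sets
-/

set_option autoImplicit false

open Finset Filter Topology

namespace Pool.Agent.L7h48.SL

theorem exists_chain {α : Type*} (P : α → Prop) (R : α → α → Prop) (x0 : α) (h0 : P x0)
    (hs : ∀ x, P x → ∃ y, P y ∧ R x y) : ∃ f : ℕ → α, (∀ k, P (f k)) ∧ ∀ k, R (f k) (f (k + 1)) := by
  choose! g hg using hs
  let f : ℕ → {x // P x} := fun k => Nat.rec ⟨x0, h0⟩ (fun _ x => ⟨g x.1, (hg x.1 x.2).1⟩) k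
  exact ⟨fun k => (f k).1, fun k => (f k).2, fun k => (hg (f k).1 (f k).2).2⟩

open Classical in
/-- the chain of indices and stages -/
theorem chain (off : ℕ → ℕ) (N n al h : ℕ → ℕ) (w : ℕ → ℕ → ℝ) (om : ℕ → ℝ) (_hO : Out off om N n al h w)
    (I : Set ℕ) (hI : I.Infinite) (hgood : ∀ F : Finset ℕ, (∀ j ∈ F, j ∈ I) → ∃ᶠ i : ℕ in atTop,
      1 / ((i : ℝ) + 2) ≤ ∑ b ∈ (range (n i + 1)).filter (fun b => ∀ j ∈ F, (b + h j).Prime), w i b) :
    ∃ (F : ℕ → Finset ℕ) (j i : ℕ → ℕ), (∀ k, j k ∈ F k ∧ F k ⊆ F (k + 1) ∧ off (i k + 1) ≤ j (k + 1) ∧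
      i k < i (k + 1) ∧ j k < i k ∧ h (j (k + 1)) + n (i k) ≤ i (k + 1) ∧ (∀ l ∈ F k, l < i k) ∧
      1 / ((i k : ℝ) + 2) ≤ ∑ b ∈ (range (n (i k) + 1)).filter (fun b => ∀ j ∈ F k, (b + h j).Prime),
        w (i k) b) := by
  let P : Finset ℕ × ℕ × ℕ → Prop := fun x => (∀ l ∈ x.1, l ∈ I) ∧ x.2.1 ∈ x.1 ∧ (∀ l ∈ x.1, l < x.2.2) ∧
    1 / ((x.2.2 : ℝ) + 2) ≤ ∑ b ∈ (range (n x.2.2 + 1)).filter (fun b => ∀ j ∈ x.1, (b + h j).Prime),
        w x.2.2 b
  let R : Finset ℕ × ℕ × ℕ → Finset ℕ × ℕ × ℕ → Prop := fun x y => x.1 ⊆ y.1 ∧ off (x.2.2 + 1) ≤ y.2.1 ∧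
    x.2.2 < y.2.2 ∧ h y.2.1 + n x.2.2 ≤ y.2.2
  -- extension by one index
  have hex : ∀ (F : Finset ℕ) (M M' : ℕ), (∀ l ∈ F, l ∈ I) → ∃ j i : ℕ, j ∈ I ∧ M ≤ j ∧
      (∀ l ∈ insert j F, l < i) ∧ M' < i ∧ h j + M' ≤ i ∧
      1 / ((i : ℝ) + 2) ≤ ∑ b ∈ (range (n i + 1)).filter (fun b => ∀ j' ∈ insert j F, (b + h j').Prime),
        w i b := by
    intro F M M' hF
    obtain ⟨j, hjI, hjM⟩ := hI.exists_gt M
    have hF' : ∀ l ∈ insert j F, l ∈ I := by
      intro l hl
      rcases Finset.mem_insert.1 hl with rfl | hl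
      · exact hjI
      · exact hF l hl
    obtain ⟨i, hi1, hi2⟩ := ((hgood (insert j F) hF').and_eventually
      (eventually_ge_atTop ((insert j F).sup id + M' + h j + 1))).exists
    refine ⟨j, i, hjI, hjM.le, ?_, by omega, by omega, hi1⟩
    intro l hl
    have h1 : id l ≤ (insert j F).sup id := Finset.le_sup hl
    simp only [id] at h1
    have h2 : l ≤ (insert j F).sup id := h1
    omega
  obtain ⟨j0, i0, hj0, _, hl0, _, _, hg0⟩ := hex ∅ 0 0 (by simp)
  have hP0 : P (insert j0 ∅, j0, i0) := by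
    refine ⟨?_, Finset.mem_insert_self _ _, hl0, hg0⟩
    intro l hl
    have : l = j0 := by simpa using hl
    rw [this]
    exact hj0
  obtain ⟨f, hf1, hf2⟩ := exists_chain P R (insert j0 ∅, j0, i0) hP0 (by
    rintro ⟨F, j, i⟩ ⟨h1, _, _, _⟩
    obtain ⟨j', i', e1, e2, e3, e4, e5, e6⟩ := hex F (off (i + 1)) (n i + i) h1
    refine ⟨(insert j' F, j', i'), ⟨?_, Finset.mem_insert_self _ _, e3, e6⟩, Finset.subset_insert _ _, e2,
      ?_, ?_⟩
    · intro l hl
      rcases Finset.mem_insert.1 hl with rfl | hl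
      · exact e1
      · exact h1 l hl
    · show i < i'
      omega
    · show h j' + n i ≤ i'
      omega)
  refine ⟨fun k => (f k).1, fun k => (f k).2.1, fun k => (f k).2.2, fun k => ?_⟩
  obtain ⟨_, a2, a3, a4⟩ := hf1 k
  obtain ⟨b1, b2, b3, b4⟩ := hf2 k
  exact ⟨a2, b1, b2, b3, a3 _ a2, b4, a3, a4⟩

theorem s_FINAL : S_FINAL := by
  classical
  intro off hoff h0 om N n al h w hO I hI hgood
  obtain ⟨F, j, i, hc⟩ := chain off N n al h w om hO I hI hgood
  have hNs : ∀ t, N t < N (t + 1) := fun t => by have := hO.lt t; omega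
  have hN : StrictMono N := strictMono_nat_of_lt_succ hNs
  have hNt : ∀ t, t ≤ N t := fun t => hN.id_le t
  have hi : StrictMono i := strictMono_nat_of_lt_succ fun k => (hc k).2.2.2.1
  have hF : Monotone F := monotone_nat_of_le_succ fun k => (hc k).2.1
  have hjF : ∀ l k, l ≤ k → j l ∈ F k := fun l k hlk => hF hlk (hc l).1
  have hoffle : ∀ t, t ≤ off t := fun t => hoff.id_le t
  have hnm : ∀ t t', t ≤ t' → n t ≤ n t' := by
    intro t t' htt
    rcases Nat.eq_or_lt_of_le htt with rfl | hlt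
    · exact le_rfl
    · have h1 := hO.lt t
      have h2 := hO.lt t'
      have h3 : N (t + 1) ≤ N t' := hN.monotone hlt
      omega
  -- the sets `T k`
  have hT : ∀ k, ∃ T : Finset ℕ, (∀ b ∈ T, N (i k) < b ∧ b ≤ n (i k) ∧ (∀ l ∈ F k, (b + h l).Prime) ∧
      ∀ p, p.Prime → ¬ p ∣ b + al p) ∧
      ∀ m : ℕ, n (i k) ≤ m → m ≤ 2 * n (i k) → (m : ℝ) / (Real.log m) ^ (om m) ≤ T.card := by
    intro k
    apply hO.cnt (i k) (F k) _ (hc k).2.2.2.2.2.2.2
    intro l hl
    have h1 := (hc k).2.2.2.2.2.2.1 l hl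
    have h2 := hoffle (i k + 1)
    rw [Finset.mem_range]
    omega
  choose T hT1 hT2 using hT
  have hhj : ∀ l m, l ≤ m → h (j l) ≤ N (i m) := by
    intro l m hlm
    have h1 : j l < off (i l) := lt_of_lt_of_le (hc l).2.2.2.2.1 (hoffle _)
    exact (hO.hle (i l) (j l) h1).trans (hN.monotone (hi.monotone hlm))
  have hbn : ∀ k m, k ≤ m → ∀ b ∈ T k, b ≤ n (i m) := fun k m hkm b hb =>
    (hT1 k b hb).2.1.trans (hnm _ _ (hi.monotone hkm))
  have small : ∀ l k m, l ≤ m → k ≤ m → ∀ b ∈ T k, h (j l) + b ≤ N (i m + 1) := by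
    intro l k m hl hk b hb
    have h1 := hhj l m hl
    have h2 := hbn k m hk b hb
    have h3 := hO.lt (i m)
    omega
  have big : ∀ m k, k ≤ m → ∀ b ∈ T k, ∀ p, p.Prime → p ∣ h (j (m + 1)) + b → N (i m + 1) < p := by
    intro m k hk b hb p hp hpd
    by_contra hcon
    push Not at hcon
    have h1 := hO.hmod (i m + 1) (j (m + 1)) (hc m).2.2.1 p hp hcon
    apply (hT1 k b hb).2.2.2 p hp
    have h2 : h (j (m + 1)) + b ≡ al p + b [MOD p] := h1.add_right b
    have h3 : p ∣ al p + b := (Nat.ModEq.dvd_iff h2 dvd_rfl).1 hpd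
    rwa [add_comm] at h3
  have prm : ∀ l k, l ≤ k → ∀ b ∈ T k, (h (j l) + b).Prime := by
    intro l k hlk b hb
    rw [add_comm]
    exact (hT1 k b hb).2.2.1 (j l) (hjF l k hlk)
  -- prime against composite
  have keyPC : ∀ l k, l ≤ k → ∀ b ∈ T k, ∀ m' k', k' ≤ m' → ∀ b' ∈ T k',
      Nat.Coprime (h (j l) + b) (h (j (m' + 1)) + b') := by
    intro l k hlk b hb m' k' hk' b' hb'
    have hx := prm l k hlk b hb
    rcases Nat.lt_or_ge m' k with hmk | hmk
    · -- `m' + 1 ≤ k`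
      rw [Nat.Prime.coprime_iff_not_dvd hx]
      have h1 : h (j (m' + 1)) + b' ≤ N (i k) := by
        have e1 := (hc m').2.2.2.2.2.1
        have e2 := hbn k' m' hk' b' hb'
        have e3 := hNt (i (m' + 1))
        have e4 : N (i (m' + 1)) ≤ N (i k) := hN.monotone (hi.monotone hmk)
        omega
      have h2 := (hT1 k b hb).1
      have h3 := (hT1 k' b' hb').1
      apply Nat.not_dvd_of_pos_of_lt
      · omega
      · omega
    · -- `k ≤ m'`
      apply Nat.coprime_of_dvd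
      intro p hp hp1 hp2
      have h1 := big m' k' hk' b' hb' p hp hp2
      have h2 := small l k m' (hlk.trans hmk) hmk b hb
      have h3 := Nat.le_of_dvd hx.pos hp1
      omega
  -- composite against composite
  have keyCC : ∀ m k, k ≤ m → ∀ b ∈ T k, ∀ m' k', k' ≤ m' → ∀ b' ∈ T k', m < m' →
      Nat.Coprime (h (j (m + 1)) + b) (h (j (m' + 1)) + b') := by
    intro m k hk b hb m' k' hk' b' hb' hmm
    apply Nat.coprime_of_dvd
    intro p hp hp1 hp2
    have h1 := big m' k' hk' b' hb' p hp hp2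
    have h2 := small (m + 1) k m' hmm (hk.trans hmm.le) b hb
    have h4 := (hT1 k b hb).1
    have h3 := Nat.le_of_dvd (by omega) hp1
    omega
  have keyEq : ∀ m k, k ≤ m → ∀ b ∈ T k, ∀ k', k' ≤ m → ∀ b' ∈ T k', b < b' →
      Nat.Coprime (h (j (m + 1)) + b) (h (j (m + 1)) + b') := by
    intro m k hk b hb k' hk' b' hb' hlt
    apply Nat.coprime_of_dvd
    intro p hp hp1 hp2
    have h1 := big m k' hk' b' hb' p hp hp2
    have h2 := hbn k' m hk' b' hb'
    have h3 := hO.lt (i m)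
    have h4 : p ∣ (h (j (m + 1)) + b') - (h (j (m + 1)) + b) := Nat.dvd_sub hp2 hp1
    have h5 : (h (j (m + 1)) + b') - (h (j (m + 1)) + b) = b' - b := by omega
    rw [h5] at h4
    have h6 := Nat.le_of_dvd (by omega) h4
    omega
  have key : ∀ l k, ∀ b ∈ T k, ∀ l' k', ∀ b' ∈ T k', h (j l) + b ≠ h (j l') + b' →
      Nat.Coprime (h (j l) + b) (h (j l') + b') := by
    intro l k b hb l' k' b' hb' hne
    rcases Nat.lt_or_ge k l with h1 | h1
    · obtain ⟨m, rfl⟩ : ∃ m, l = m + 1 := ⟨l - 1, by omega⟩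
      rcases Nat.lt_or_ge k' l' with h2 | h2
      · obtain ⟨m', rfl⟩ : ∃ m, l' = m + 1 := ⟨l' - 1, by omega⟩
        rcases lt_trichotomy m m' with h3 | h3 | h3
        · exact keyCC m k (by omega) b hb m' k' (by omega) b' hb' h3
        · subst h3
          rcases lt_trichotomy b b' with h4 | h4 | h4
          · exact keyEq m k (by omega) b hb k' (by omega) b' hb' h4
          · exact absurd (by rw [h4]) hne
          · exact (keyEq m k' (by omega) b' hb' k (by omega) b hb h4).symm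
        · exact (keyCC m' k' (by omega) b' hb' m k (by omega) b hb h3).symm
      · exact (keyPC l' k' h2 b' hb' m k (by omega) b hb).symm
    · rcases Nat.lt_or_ge k' l' with h2 | h2
      · obtain ⟨m', rfl⟩ : ∃ m, l' = m + 1 := ⟨l' - 1, by omega⟩
        exact keyPC l k h1 b hb m' k' (by omega) b' hb'
      · exact (Nat.coprime_primes (prm l k h1 b hb) (prm l' k' h2 b' hb')).2 hne
  have hjmono : StrictMono j := by
    apply strictMono_nat_of_lt_succ
    intro k
    have h1 := (hc k).2.2.1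
    have h2 := (hc k).2.2.2.2.1
    have h3 := hoffle (i k + 1)
    omega
  have hcount : ∀ k, ∀ m, n (i k) ≤ m → m ≤ 2 * n (i k) → (m : ℝ) / (Real.log m) ^ (om m) ≤ (T k).card :=
    fun k => hT2 k
  have hnlow : ∀ k, k < n (i k) := by
    intro k
    have h1 := (hO.lt (i k)).1
    have h2 := hNt (i k)
    have h3 : k ≤ i k := hi.id_le k
    omega
  refine ⟨Set.range fun k => h (j k), {b | ∃ k, b ∈ T k}, ?_, ?_, ?_, ?_⟩
  · apply Set.infinite_range_of_injective
    intro k k' hkk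
    exact hjmono.injective (hO.hinj _ _ hkk)
  · apply Set.infinite_of_forall_exists_gt
    intro a
    have h1 := hcount (a + 2) (n (i (a + 2))) le_rfl (by omega)
    have h2 := hnlow (a + 2)
    have h3 : 0 < ((n (i (a + 2)) : ℕ) : ℝ) / (Real.log (n (i (a + 2)) : ℕ)) ^ (om (n (i (a + 2)))) := by
      have h4 : (1 : ℝ) < (n (i (a + 2)) : ℕ) := by exact_mod_cast (by omega : 1 < n (i (a + 2)))
      have h5 : 0 < Real.log (n (i (a + 2)) : ℕ) := Real.log_pos h4
      positivity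
    have h6 : 0 < (T (a + 2)).card := by
      have : (0 : ℝ) < ((T (a + 2)).card : ℝ) := lt_of_lt_of_le h3 h1
      exact_mod_cast this
    obtain ⟨b, hb⟩ := Finset.card_pos.1 h6
    refine ⟨b, ⟨a + 2, hb⟩, ?_⟩
    have h7 := (hT1 _ b hb).1
    have h8 := hNt (i (a + 2))
    have h9 : a + 2 ≤ i (a + 2) := hi.id_le _
    omega
  · rintro _ ⟨l, rfl⟩ b ⟨k, hb⟩ _ ⟨l', rfl⟩ b' ⟨k', hb'⟩ hne
    exact key l k b hb l' k' b' hb' hne
  · rw [Filter.frequently_atTop]
    intro a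
    refine ⟨n (i a) + h (j 0), ?_, ?_⟩
    · have := hnlow a
      omega
    · have h1 : h (j 0) ≤ N (i a) := hhj 0 a (Nat.zero_le _)
      have h2 := (hO.lt (i a)).1
      refine (hcount a (n (i a) + h (j 0)) (by omega) (by omega)).trans ?_
      have hfin : ({s : ℕ | ∃ x ∈ Set.range (fun k => h (j k)), ∃ y ∈ {b | ∃ k, b ∈ T k}, s = x + y} ∩
          Set.Icc 1 (n (i a) + h (j 0))).Finite := (Set.finite_Icc _ _).inter_of_right _
      have hsub : (((T a).image (fun b => h (j 0) + b) : Finset ℕ) : Set ℕ) ⊆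
          {s : ℕ | ∃ x ∈ Set.range (fun k => h (j k)), ∃ y ∈ {b | ∃ k, b ∈ T k}, s = x + y} ∩
          Set.Icc 1 (n (i a) + h (j 0)) := by
        intro s hs
        rw [Finset.mem_coe, Finset.mem_image] at hs
        obtain ⟨b, hb, rfl⟩ := hs
        have h3 := hT1 a b hb
        refine ⟨⟨h (j 0), ⟨0, rfl⟩, b, ⟨a, hb⟩, rfl⟩, ?_, ?_⟩
        · show 1 ≤ h (j 0) + b
          have := h3.1
          omega
        · show h (j 0) + b ≤ n (i a) + h (j 0)
          have := h3.2.1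
          omega
      have h4 := Set.ncard_le_ncard hsub hfin
      rw [Set.ncard_coe_finset, Finset.card_image_of_injective _ (add_right_injective (h (j 0)))] at h4
      exact_mod_cast h4

end Pool.Agent.L7h48.SL
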