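import Pool.Agent.L7h48.SL.Stm2
import Pool.Agent.L7h48.SL.Final

/-!
# Project SL, parts FINAL2, HT: the final sets, version with prescribed heights
-/

set_option autoImplicit false

open Finset Filter Topology

namespace Pool.Agent.L7h48.SL

theorem Out2.toOut {XX : Set ℕ} {off : ℕ → ℕ} {om : ℕ → ℝ} {N n al h : ℕ → ℕ} {w : ℕ → ℕ → ℝ}
    (hO : Out2 XX off om N n al h w) : Out off om N n al h w := by
  refine ⟨hO.lt, hO.hle, hO.hinj, hO.hmod, fun i F hF hw => ?_⟩
  obtain ⟨T, h1, h2⟩ := hO.cnt i F hF hw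
  exact ⟨T, h1, fun m hm hm2 => h2 m hm (by omega)⟩

theorem s_HT : S_HT := by
  intro XX hXX Q u hQ P hP
  obtain ⟨X0, hX0⟩ := Filter.eventually_atTop.1 hP
  obtain ⟨x, hx, hxl⟩ := hXX.exists_gt (2 * (Q * (X0 + 1) + u) + 1)
  have h1 : Q * (X0 + 1) ≤ x / 2 - u := by omega
  have h2 : X0 + 1 ≤ (x / 2 - u) / Q := by
    rw [Nat.le_div_iff_mul_le (by omega), mul_comm]
    exact h1
  have h3 : Q * ((x / 2 - u) / Q) ≤ x / 2 - u := Nat.mul_div_le _ _
  have h4 : x / 2 - u < Q * ((x / 2 - u) / Q) + Q := by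
    have := Nat.lt_mul_div_succ (x / 2 - u) (by omega : 0 < Q)
    rwa [Nat.mul_add, Nat.mul_one] at this
  have h5 : Q * 1 ≤ Q * ((x / 2 - u) / Q) := Nat.mul_le_mul_left _ (by omega)
  refine ⟨(x / 2 - u) / Q, hX0 _ (by omega), x, hx, by omega, by omega⟩

theorem s_FINAL2 : S_FINAL2 := by
  classical
  intro XX off hoff h0 om N n al h w hO I hI hgood
  obtain ⟨F, j, i, hc⟩ := chain off N n al h w om hO.toOut I hI hgood
  have hNs : ∀ t, N t < N (t + 1) := fun t => by have := hO.lt t; omega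
  have hN : StrictMono N := strictMono_nat_of_lt_succ hNs
  have hNt : ∀ t, t ≤ N t := fun t => hN.id_le t
  have hi : StrictMono i := strictMono_nat_of_lt_succ fun k => (hc k).2.2.2.1
  have hF : Monotone F := monotone_nat_of_le_succ fun k => (hc k).2.1
  have hjF : ∀ l k, l ≤ k → j l ∈ F k := fun l k hlk => hF hlk (hc l).1
  have hoffle : ∀ t, t ≤ off t := fun t => hoff.id_le t
  have hnm : ∀ t t', t ≤ t' → n t ≤ n t' := by
    intro t t' htt
    rcases Nat.eq_or_lt_of_le htt with rfl | hlt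
    · exact le_rfl
    · have h1 := hO.lt t
      have h2 := hO.lt t'
      have h3 : N (t + 1) ≤ N t' := hN.monotone hlt
      omega
  -- the sets `T k`
  have hT : ∀ k, ∃ T : Finset ℕ, (∀ b ∈ T, N (i k) < b ∧ b ≤ n (i k) ∧ (∀ l ∈ F k, (b + h l).Prime) ∧
      ∀ p, p.Prime → ¬ p ∣ b + al p) ∧
      ∀ m : ℕ, n (i k) ≤ m → m ≤ 4 * n (i k) → (m : ℝ) / (Real.log m) ^ (om m) ≤ T.card := by
    intro k
    apply hO.cnt (i k) (F k) _ (hc k).2.2.2.2.2.2.2
    intro l hl
    have h1 := (hc k).2.2.2.2.2.2.1 l hl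
    have h2 := hoffle (i k + 1)
    rw [Finset.mem_range]
    omega
  choose T hT1 hT2 using hT
  have hhj : ∀ l m, l ≤ m → h (j l) ≤ N (i m) := by
    intro l m hlm
    have h1 : j l < off (i l) := lt_of_lt_of_le (hc l).2.2.2.2.1 (hoffle _)
    exact (hO.hle (i l) (j l) h1).trans (hN.monotone (hi.monotone hlm))
  have hbn : ∀ k m, k ≤ m → ∀ b ∈ T k, b ≤ n (i m) := fun k m hkm b hb =>
    (hT1 k b hb).2.1.trans (hnm _ _ (hi.monotone hkm))
  have small : ∀ l k m, l ≤ m → k ≤ m → ∀ b ∈ T k, h (j l) + b ≤ N (i m + 1) := by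
    intro l k m hl hk b hb
    have h1 := hhj l m hl
    have h2 := hbn k m hk b hb
    have h3 := hO.lt (i m)
    omega
  have big : ∀ m k, k ≤ m → ∀ b ∈ T k, ∀ p, p.Prime → p ∣ h (j (m + 1)) + b → N (i m + 1) < p := by
    intro m k hk b hb p hp hpd
    by_contra hcon
    push Not at hcon
    have h1 := hO.hmod (i m + 1) (j (m + 1)) (hc m).2.2.1 p hp hcon
    apply (hT1 k b hb).2.2.2 p hp
    have h2 : h (j (m + 1)) + b ≡ al p + b [MOD p] := h1.add_right b
    have h3 : p ∣ al p + b := (Nat.ModEq.dvd_iff h2 dvd_rfl).1 hpd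
    rwa [add_comm] at h3
  have prm : ∀ l k, l ≤ k → ∀ b ∈ T k, (h (j l) + b).Prime := by
    intro l k hlk b hb
    rw [add_comm]
    exact (hT1 k b hb).2.2.1 (j l) (hjF l k hlk)
  -- prime against composite
  have keyPC : ∀ l k, l ≤ k → ∀ b ∈ T k, ∀ m' k', k' ≤ m' → ∀ b' ∈ T k',
      Nat.Coprime (h (j l) + b) (h (j (m' + 1)) + b') := by
    intro l k hlk b hb m' k' hk' b' hb'
    have hx := prm l k hlk b hb
    rcases Nat.lt_or_ge m' k with hmk | hmk
    · -- `m' + 1 ≤ k`
      rw [Nat.Prime.coprime_iff_not_dvd hx]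
      have h1 : h (j (m' + 1)) + b' ≤ N (i k) := by
        have e1 := (hc m').2.2.2.2.2.1
        have e2 := hbn k' m' hk' b' hb'
        have e3 := hNt (i (m' + 1))
        have e4 : N (i (m' + 1)) ≤ N (i k) := hN.monotone (hi.monotone hmk)
        omega
      have h2 := (hT1 k b hb).1
      have h3 := (hT1 k' b' hb').1
      apply Nat.not_dvd_of_pos_of_lt
      · omega
      · omega
    · -- `k ≤ m'`
      apply Nat.coprime_of_dvd
      intro p hp hp1 hp2
      have h1 := big m' k' hk' b' hb' p hp hp2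
      have h2 := small l k m' (hlk.trans hmk) hmk b hb
      have h3 := Nat.le_of_dvd hx.pos hp1
      omega
  -- composite against composite
  have keyCC : ∀ m k, k ≤ m → ∀ b ∈ T k, ∀ m' k', k' ≤ m' → ∀ b' ∈ T k', m < m' →
      Nat.Coprime (h (j (m + 1)) + b) (h (j (m' + 1)) + b') := by
    intro m k hk b hb m' k' hk' b' hb' hmm
    apply Nat.coprime_of_dvd
    intro p hp hp1 hp2
    have h1 := big m' k' hk' b' hb' p hp hp2
    have h2 := small (m + 1) k m' hmm (hk.trans hmm.le) b hb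
    have h4 := (hT1 k b hb).1
    have h3 := Nat.le_of_dvd (by omega) hp1
    omega
  have keyEq : ∀ m k, k ≤ m → ∀ b ∈ T k, ∀ k', k' ≤ m → ∀ b' ∈ T k', b < b' →
      Nat.Coprime (h (j (m + 1)) + b) (h (j (m + 1)) + b') := by
    intro m k hk b hb k' hk' b' hb' hlt
    apply Nat.coprime_of_dvd
    intro p hp hp1 hp2
    have h1 := big m k' hk' b' hb' p hp hp2
    have h2 := hbn k' m hk' b' hb'
    have h3 := hO.lt (i m)
    have h4 : p ∣ (h (j (m + 1)) + b') - (h (j (m + 1)) + b) := Nat.dvd_sub hp2 hp1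
    have h5 : (h (j (m + 1)) + b') - (h (j (m + 1)) + b) = b' - b := by omega
    rw [h5] at h4
    have h6 := Nat.le_of_dvd (by omega) h4
    omega
  have key : ∀ l k, ∀ b ∈ T k, ∀ l' k', ∀ b' ∈ T k', h (j l) + b ≠ h (j l') + b' →
      Nat.Coprime (h (j l) + b) (h (j l') + b') := by
    intro l k b hb l' k' b' hb' hne
    rcases Nat.lt_or_ge k l with h1 | h1
    · obtain ⟨m, rfl⟩ : ∃ m, l = m + 1 := ⟨l - 1, by omega⟩
      rcases Nat.lt_or_ge k' l' with h2 | h2
      · obtain ⟨m', rfl⟩ : ∃ m, l' = m + 1 := ⟨l' - 1, by omega⟩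
        rcases lt_trichotomy m m' with h3 | h3 | h3
        · exact keyCC m k (by omega) b hb m' k' (by omega) b' hb' h3
        · subst h3
          rcases lt_trichotomy b b' with h4 | h4 | h4
          · exact keyEq m k (by omega) b hb k' (by omega) b' hb' h4
          · exact absurd (by rw [h4]) hne
          · exact (keyEq m k' (by omega) b' hb' k (by omega) b hb h4).symm
        · exact (keyCC m' k' (by omega) b' hb' m k (by omega) b hb h3).symm
      · exact (keyPC l' k' h2 b' hb' m k (by omega) b hb).symm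
    · rcases Nat.lt_or_ge k' l' with h2 | h2
      · obtain ⟨m', rfl⟩ : ∃ m, l' = m + 1 := ⟨l' - 1, by omega⟩
        exact keyPC l k h1 b hb m' k' (by omega) b' hb'
      · exact (Nat.coprime_primes (prm l k h1 b hb) (prm l' k' h2 b' hb')).2 hne
  have hjmono : StrictMono j := by
    apply strictMono_nat_of_lt_succ
    intro k
    have h1 := (hc k).2.2.1
    have h2 := (hc k).2.2.2.2.1
    have h3 := hoffle (i k + 1)
    omega
  have hcount : ∀ k, ∀ m, n (i k) ≤ m → m ≤ 4 * n (i k) → (m : ℝ) / (Real.log m) ^ (om m) ≤ (T k).card :=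
    fun k => hT2 k
  have hnlow : ∀ k, k < n (i k) := by
    intro k
    have h1 := (hO.lt (i k)).1
    have h2 := hNt (i k)
    have h3 : k ≤ i k := hi.id_le k
    omega
  refine ⟨Set.range fun k => h (j k), {b | ∃ k, b ∈ T k}, ?_, ?_, ?_, ?_⟩
  · apply Set.infinite_range_of_injective
    intro k k' hkk
    exact hjmono.injective (hO.hinj _ _ hkk)
  · apply Set.infinite_of_forall_exists_gt
    intro a
    have h1 := hcount (a + 2) (n (i (a + 2))) le_rfl (by omega)
    have h2 := hnlow (a + 2)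
    have h3 : 0 < ((n (i (a + 2)) : ℕ) : ℝ) / (Real.log (n (i (a + 2)) : ℕ)) ^ (om (n (i (a + 2)))) := by
      have h4 : (1 : ℝ) < (n (i (a + 2)) : ℕ) := by exact_mod_cast (by omega : 1 < n (i (a + 2)))
      have h5 : 0 < Real.log (n (i (a + 2)) : ℕ) := Real.log_pos h4
      positivity
    have h6 : 0 < (T (a + 2)).card := by
      have : (0 : ℝ) < ((T (a + 2)).card : ℝ) := lt_of_lt_of_le h3 h1
      exact_mod_cast this
    obtain ⟨b, hb⟩ := Finset.card_pos.1 h6
    refine ⟨b, ⟨a + 2, hb⟩, ?_⟩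
    have h7 := (hT1 _ b hb).1
    have h8 := hNt (i (a + 2))
    have h9 : a + 2 ≤ i (a + 2) := hi.id_le _
    omega
  · rintro _ ⟨l, rfl⟩ b ⟨k, hb⟩ _ ⟨l', rfl⟩ b' ⟨k', hb'⟩ hne
    exact key l k b hb l' k' b' hb' hne
  · rw [Filter.frequently_atTop]
    intro a
    obtain ⟨x, hxX, hx2, hx4⟩ := hO.xx (i a)
    have h1 : h (j 0) ≤ N (i a) := hhj 0 a (Nat.zero_le _)
    have h2 := (hO.lt (i a)).1
    refine ⟨x, ?_, hxX, ?_⟩
    · have := hnlow a
      omega
    · refine (hcount a x (by omega) hx4).trans ?_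
      have hfin : ({s : ℕ | ∃ x ∈ Set.range (fun k => h (j k)), ∃ y ∈ {b | ∃ k, b ∈ T k}, s = x + y} ∩
          Set.Icc 1 x).Finite := (Set.finite_Icc _ _).inter_of_right _
      have hsub : (((T a).image (fun b => h (j 0) + b) : Finset ℕ) : Set ℕ) ⊆
          {s : ℕ | ∃ x ∈ Set.range (fun k => h (j k)), ∃ y ∈ {b | ∃ k, b ∈ T k}, s = x + y} ∩
          Set.Icc 1 x := by
        intro s hs
        rw [Finset.mem_coe, Finset.mem_image] at hs
        obtain ⟨b, hb, rfl⟩ := hs
        have h3 := hT1 a b hb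
        refine ⟨⟨h (j 0), ⟨0, rfl⟩, b, ⟨a, hb⟩, rfl⟩, ?_, ?_⟩
        · show 1 ≤ h (j 0) + b
          have := h3.1
          omega
        · show h (j 0) + b ≤ x
          have := h3.2.1
          omega
      have h4 := Set.ncard_le_ncard hsub hfin
      rw [Set.ncard_coe_finset, Finset.card_image_of_injective _ (add_right_injective (h (j 0)))] at h4
      exact_mod_cast h4

end Pool.Agent.L7h48.SL
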