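import Pool.Agent.L7h48.SL.Stm
import Pool.Agent.H361R2.InfT1

/-!
# Project SL, part LIM: the limit of the weights
-/

set_option autoImplicit false

open Finset Filter Topology

namespace Pool.Agent.L7h48.SL

theorem s_LIM : S_LIM := by
  classical
  intro off hoff h0 c hc N n h w hN hw0 hws hwt hwb
  let U : Ultrafilter ℕ := Ultrafilter.of atTop
  have hU : (U : Filter ℕ) ≤ atTop := Ultrafilter.of_le _
  set g : Set ℕ → ℕ → ℝ := fun A i => ∑ b ∈ (range (n i + 1)).filter (fun b => b ∈ A), w i b with hg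
  have hnn : ∀ A i, 0 ≤ g A i := fun A i => Finset.sum_nonneg fun b _ => hw0 i b
  have hmono2 : ∀ (A : Set ℕ) (i : ℕ) (P : ℕ → Prop) [DecidablePred P], (∀ b, P b → b ∈ A) →
      ∑ b ∈ (range (n i + 1)).filter P, w i b ≤ g A i := by
    intro A i P _ hAP
    apply Finset.sum_le_sum_of_subset_of_nonneg
    · intro b hb
      rw [Finset.mem_filter] at hb ⊢
      exact ⟨hb.1, hAP b hb.2⟩
    · intro b _ _
      exact hw0 i b
  have hmono : ∀ (A : Set ℕ) (i : ℕ) (P : ℕ → Prop) [DecidablePred P], (∀ b ∈ A, P b) →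
      g A i ≤ ∑ b ∈ (range (n i + 1)).filter P, w i b := by
    intro A i P _ hAP
    apply Finset.sum_le_sum_of_subset_of_nonneg
    · intro b hb
      rw [Finset.mem_filter] at hb ⊢
      exact ⟨hb.1, hAP b hb.2⟩
    · intro b _ _
      exact hw0 i b
  have hle : ∀ A i, g A i ≤ 2 := by
    intro A i
    refine le_trans ?_ (hwt i)
    exact Finset.sum_le_sum_of_subset_of_nonneg (Finset.filter_subset _ _) fun b _ _ => hw0 i b
  have hlim : ∀ A : Set ℕ, ∃ y : ℝ, y ∈ Set.Icc (0:ℝ) 2 ∧ Tendsto (g A) (U : Filter ℕ) (𝓝 y) := by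
    intro A
    have h1 : (U.map (g A) : Filter ℝ) ≤ 𝓟 (Set.Icc (0:ℝ) 2) := by
      rw [Filter.le_principal_iff, Ultrafilter.mem_coe, Ultrafilter.mem_map]
      exact Filter.univ_mem' fun i => ⟨hnn A i, hle A i⟩
    obtain ⟨y, hy, hy2⟩ := isCompact_Icc.ultrafilter_le_nhds (U.map (g A)) h1
    exact ⟨y, hy, hy2⟩
  choose m hm1 hm2 using hlim
  have hm : Pool.Agent.H361R2.Inf.FMeas m := by
    refine ⟨fun A => (hm1 A).1, fun A B hAB => ?_, fun A hA => ?_⟩
    · have h1 : Tendsto (g (A ∪ B)) (U : Filter ℕ) (𝓝 (m A + m B)) := by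
        have h2 := (hm2 A).add (hm2 B)
        refine h2.congr fun i => ?_
        simp only [hg, Set.mem_union]
        rw [Finset.filter_or, Finset.sum_union]
        rw [Finset.disjoint_filter]
        intro b _ ha hb
        exact Set.disjoint_left.1 hAB ha hb
      exact tendsto_nhds_unique (hm2 _) h1
    · have h1 : g A =ᶠ[(U : Filter ℕ)] fun _ => 0 := by
        obtain ⟨M, hM⟩ := hA.bddAbove
        filter_upwards [hU (eventually_gt_atTop M)] with i hi
        apply Finset.sum_eq_zero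
        intro b hb
        rw [Finset.mem_filter] at hb
        by_contra hne
        have h2 := (hws i b hne).1
        have h3 := hM hb.2
        have h4 := hN i
        omega
      exact tendsto_nhds_unique (hm2 A) (tendsto_const_nhds.congr' h1.symm)
  have hB : ∀ t, c ≤ m {b | ∃ j ∈ Ico (off t) (off (t + 1)), b ∈ (fun j => {b : ℕ | (b + h j).Prime}) j} := by
    intro t
    refine ge_of_tendsto (hm2 _) ?_
    filter_upwards [hU (eventually_ge_atTop t)] with i hi
    exact (hwb i t (by omega)).trans (hmono2 _ i _ fun b hb => hb)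
  obtain ⟨I, hI, hI2⟩ := Pool.Agent.H361R2.Inf.comb m hm off hoff h0
    (fun j => {b : ℕ | (b + h j).Prime}) c hc hB
  refine ⟨I, hI, fun F hF => ?_⟩
  set K := F.sup id + 1 with hK
  have hδ := hI2 K
  set A : Set ℕ := {b | ∀ j < K, (b ∈ {b : ℕ | (b + h j).Prime} ↔ j ∈ I)} with hA
  have h1 : ∀ᶠ i : ℕ in (U : Filter ℕ), m A / 2 < g A i := (hm2 A).eventually (lt_mem_nhds (by linarith))
  have h2 : ∀ᶠ i : ℕ in atTop, 1 / ((i : ℝ) + 2) ≤ m A / 2 := by
    have h3 : Tendsto (fun i : ℕ => (i : ℝ) + 2) atTop atTop :=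
      tendsto_atTop_add_const_right _ _ tendsto_natCast_atTop_atTop
    filter_upwards [h3.eventually_ge_atTop (2 / m A)] with i hi
    rw [div_le_div_iff₀ (by positivity) (by norm_num)]
    rw [div_le_iff₀ hδ] at hi
    linarith
  have h4 : ∀ᶠ i : ℕ in (U : Filter ℕ), 1 / ((i : ℝ) + 2) ≤
      ∑ b ∈ (range (n i + 1)).filter (fun b => ∀ j ∈ F, (b + h j).Prime), w i b := by
    filter_upwards [h1, hU h2] with i hi1 hi2
    refine hi2.trans (hi1.le.trans (hmono A i _ ?_))
    intro b hb j hj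
    have h5 : id j ≤ F.sup id := Finset.le_sup hj
    have h6 : j < K := by
      simp only [id] at h5
      omega
    exact (hb j h6).2 (hF j hj)
  exact h4.frequently.filter_mono hU

end Pool.Agent.L7h48.SL
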