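import Pool.Agent.L7h48.SL.Stm
import Pool.Agent.H361R2.Ana

/-!
# Project SL, parts PB, MOM
-/

set_option autoImplicit false

open Finset Filter Topology

namespace Pool.Agent.L7h48.SL

theorem s_PB : S_PB := by
  classical
  intro K
  obtain ⟨C, hC, M, h⟩ := Pool.Agent.H361R2.prodBound (6 * (K : ℝ)) (by positivity)
  refine ⟨1 / C, M, by positivity, fun N N' hN hN' => ?_⟩
  have hN3 : (3 : ℝ) ≤ (N' : ℝ) := by exact_mod_cast hN'
  have h1 := h (N' : ℝ) hN3
  rw [Nat.floor_natCast] at h1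
  set P := (Ioc N N').filter Nat.Prime with hP
  have hsub : P ⊆ (Icc 1 N').filter Nat.Prime := by
    intro p hp
    rw [hP, Finset.mem_filter, Finset.mem_Ioc] at hp
    rw [Finset.mem_filter, Finset.mem_Icc]
    exact ⟨⟨hp.2.one_lt.le, hp.1.2⟩, hp.2⟩
  have h2 : ∏ p ∈ P, (1 + 6 * (K : ℝ) / (p : ℝ)) ≤ C * (Real.log N') ^ M := by
    refine le_trans ?_ h1
    apply Finset.prod_le_prod_of_subset_of_one_le hsub
    · intro p _
      positivity
    · intro p _ _
      have : 0 ≤ 6 * (K : ℝ) / (p : ℝ) := by positivity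
      linarith
  have hL : 0 < Real.log N' := Real.log_pos (by linarith)
  have h3 : 1 ≤ (∏ p ∈ P, (1 - 3 * (K : ℝ) / p)) * ∏ p ∈ P, (1 + 6 * (K : ℝ) / (p : ℝ)) := by
    rw [← Finset.prod_mul_distrib]
    have hone : ∏ _p ∈ P, (1 : ℝ) ≤ ∏ p ∈ P, ((1 - 3 * (K : ℝ) / p) * (1 + 6 * (K : ℝ) / (p : ℝ))) := by
      apply Finset.prod_le_prod
      · intro p _
        exact zero_le_one
      · intro p hp
        rw [hP, Finset.mem_filter, Finset.mem_Ioc] at hp
        have hp0 : (0 : ℝ) < p := by exact_mod_cast hp.2.pos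
        have hpK : 6 * (K : ℝ) ≤ p := by
          have : 6 * K ≤ p := by omega
          exact_mod_cast this
        have ht : 3 * (K : ℝ) / p ≤ 1 / 2 := by
          rw [div_le_iff₀ hp0]
          linarith
        have ht0 : 0 ≤ 3 * (K : ℝ) / p := by positivity
        have e : 6 * (K : ℝ) / p = 2 * (3 * (K : ℝ) / p) := by ring
        rw [e]
        nlinarith
    simpa using hone
  have hpos : 0 < ∏ p ∈ P, (1 + 6 * (K : ℝ) / (p : ℝ)) := Finset.prod_pos fun p _ => by positivity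
  have hD : 0 < C * (Real.log N') ^ M := by positivity
  have h4 : 1 / (C * (Real.log N') ^ M) ≤ ∏ p ∈ P, (1 - 3 * (K : ℝ) / p) := by
    calc 1 / (C * (Real.log N') ^ M) ≤ 1 / ∏ p ∈ P, (1 + 6 * (K : ℝ) / (p : ℝ)) :=
          one_div_le_one_div_of_le hpos h2
      _ ≤ _ := by
          rw [div_le_iff₀ hpos]
          exact h3
  calc 1 / C / (Real.log N') ^ M = 1 / (C * (Real.log N') ^ M) := by rw [div_div]
    _ ≤ _ := h4

theorem card_mult (Y : ℕ) (t : Finset ℕ) (ht : ∀ p ∈ t, p.Prime) :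
    (((Icc 1 Y).filter (fun m => ∀ p ∈ t, p ∣ m)).card : ℝ) ≤ Y / ∏ p ∈ t, (p : ℝ) := by
  have hd : 0 < ∏ p ∈ t, p := Finset.prod_pos fun p hp => (ht p hp).pos
  have h1 : ((Icc 1 Y).filter (fun m => ∀ p ∈ t, p ∣ m)).card ≤ Y / ∏ p ∈ t, p := by
    rw [← Nat.Ioc_filter_dvd_card_eq_div]
    apply Finset.card_le_card
    intro m hm
    rw [Finset.mem_filter, Finset.mem_Icc] at hm
    rw [Finset.mem_filter, Finset.mem_Ioc]
    refine ⟨⟨by omega, hm.1.2⟩, ?_⟩
    exact Finset.prod_primes_dvd m (fun p hp => (ht p hp).prime) hm.2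
  calc (((Icc 1 Y).filter (fun m => ∀ p ∈ t, p ∣ m)).card : ℝ) ≤ ((Y / ∏ p ∈ t, p : ℕ) : ℝ) := by
        exact_mod_cast h1
    _ ≤ (Y : ℝ) / ((∏ p ∈ t, p : ℕ) : ℝ) := Nat.cast_div_le
    _ = _ := by push_cast; rfl

theorem s_MOM : S_MOM := by
  classical
  intro ρ hρ
  obtain ⟨C, hC, M, h⟩ := Pool.Agent.H361R2.prodBound (ρ - 1) (by linarith)
  refine ⟨M + 1, ?_⟩
  have hlog : Tendsto (fun Y : ℕ => Real.log (Y : ℝ)) atTop atTop :=
    Real.tendsto_log_atTop.comp tendsto_natCast_atTop_atTop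
  filter_upwards [hlog.eventually_ge_atTop C, eventually_ge_atTop 3] with Y hY hY3
  have hY3' : (3 : ℝ) ≤ (Y : ℝ) := by exact_mod_cast hY3
  have h1 := h (Y : ℝ) hY3'
  rw [Nat.floor_natCast] at h1
  have hL : 0 < Real.log Y := Real.log_pos (by linarith)
  set P := (Icc 1 Y).filter Nat.Prime with hP
  have h2 : ∀ m ∈ Icc 1 Y, ρ ^ m.primeFactors.card =
      ∑ t ∈ P.powerset, if (∀ p ∈ t, p ∣ m) then (ρ - 1) ^ t.card else 0 := by
    intro m hm
    rw [Finset.mem_Icc] at hm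
    have e1 : ρ ^ m.primeFactors.card = ∏ _p ∈ m.primeFactors, (1 + (ρ - 1)) := by
      rw [Finset.prod_const]
      ring
    rw [e1, Finset.prod_one_add, ← Finset.sum_filter]
    apply Finset.sum_congr
    · ext t
      rw [Finset.mem_filter, Finset.mem_powerset, Finset.mem_powerset]
      constructor
      · intro ht
        refine ⟨?_, ?_⟩
        · intro p hp
          have h3 := Nat.mem_primeFactors.1 (ht hp)
          rw [hP, Finset.mem_filter, Finset.mem_Icc]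
          exact ⟨⟨h3.1.one_lt.le, (Nat.le_of_dvd (by omega) h3.2.1).trans hm.2⟩, h3.1⟩
        · intro p hp
          exact (Nat.mem_primeFactors.1 (ht hp)).2.1
      · rintro ⟨ht1, ht2⟩ p hp
        have h3 := ht1 hp
        rw [hP, Finset.mem_filter] at h3
        exact Nat.mem_primeFactors.2 ⟨h3.2, ht2 p hp, by omega⟩
    · intro t _
      rw [Finset.prod_const]
  calc ∑ m ∈ Icc 1 Y, ρ ^ m.primeFactors.card
      = ∑ m ∈ Icc 1 Y, ∑ t ∈ P.powerset, (if (∀ p ∈ t, p ∣ m) then (ρ - 1) ^ t.card else 0) :=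
        Finset.sum_congr rfl h2
    _ = ∑ t ∈ P.powerset, ∑ m ∈ Icc 1 Y, (if (∀ p ∈ t, p ∣ m) then (ρ - 1) ^ t.card else 0) :=
        Finset.sum_comm
    _ = ∑ t ∈ P.powerset, (((Icc 1 Y).filter (fun m => ∀ p ∈ t, p ∣ m)).card : ℝ) * (ρ - 1) ^ t.card := by
        refine Finset.sum_congr rfl fun t _ => ?_
        rw [← Finset.sum_filter, Finset.sum_const, nsmul_eq_mul]
    _ ≤ ∑ t ∈ P.powerset, (Y : ℝ) * ∏ p ∈ t, ((ρ - 1) / (p : ℝ)) := by
        refine Finset.sum_le_sum fun t ht => ?_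
        rw [Finset.mem_powerset] at ht
        have ht' : ∀ p ∈ t, p.Prime := fun p hp => (Finset.mem_filter.1 (ht hp)).2
        have h3 := card_mult Y t ht'
        have h4 : 0 ≤ (ρ - 1) ^ t.card := pow_nonneg (by linarith) _
        calc (((Icc 1 Y).filter (fun m => ∀ p ∈ t, p ∣ m)).card : ℝ) * (ρ - 1) ^ t.card
            ≤ (Y / ∏ p ∈ t, (p : ℝ)) * (ρ - 1) ^ t.card := mul_le_mul_of_nonneg_right h3 h4
          _ = _ := by
              rw [Finset.prod_div_distrib, Finset.prod_const]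
              ring
    _ = (Y : ℝ) * ∏ p ∈ P, (1 + (ρ - 1) / (p : ℝ)) := by
        rw [← Finset.mul_sum, Finset.prod_one_add]
    _ ≤ (Y : ℝ) * (C * (Real.log Y) ^ M) := mul_le_mul_of_nonneg_left h1 (Nat.cast_nonneg _)
    _ ≤ (Y : ℝ) * (Real.log Y * (Real.log Y) ^ M) := by
        apply mul_le_mul_of_nonneg_left _ (Nat.cast_nonneg _)
        exact mul_le_mul_of_nonneg_right hY (by positivity)
    _ = (Y : ℝ) * (Real.log Y) ^ (M + 1) := by ring

end Pool.Agent.L7h48.SL
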