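import Pool.Agent.L7h48.SL.Cor
import Pool.Agent.L7h48.SL.Fbl
import Pool.Agent.L7h48.SL.Lim
import Pool.Agent.L7h48.SL.Pb
import Pool.Agent.L7h48.SL.Final2
import Pool.Agent.L7h41.SL.Adm
import Pool.Agent.L7h41.SL.Mom2
import Pool.Agent.L7h41.SL.Num2
import Pool.Agent.L7h41.SL.Step2
import Pool.Agent.L7h41.SL.Seqout2
import Pool.Agent.L7h95.SL.Cs
import Pool.Agent.L7h95.SL.Gr

/-!
# Project SL: assembly
-/

set_option autoImplicit false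

open Finset Filter Topology

namespace Pool.Agent.L7h48.SL

theorem s_STEP2' : S_STEP2 :=
  Pool.Agent.L7h41.SL.s_STEP2 Pool.Agent.L7h41.SL.s_ADM Pool.Agent.L7h95.SL.s_VN Pool.Agent.L7h95.SL.s_GR
    s_PB Pool.Agent.L7h95.SL.s_CS Pool.Agent.L7h41.SL.s_NUM2 s_HT

theorem s_OUT2' : S_OUT2 := Pool.Agent.L7h41.SL.s_OUT2 (Pool.Agent.L7h41.SL.s_SEQ2 s_STEP2')

theorem exists_pair (om : ℕ → ℝ) (hom : Tendsto om atTop atTop) (X : Set ℕ) (hX : X.Infinite) :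
    ∃ A B : Set ℕ, Admissible A B ∧
      ∃ᶠ n : ℕ in atTop, n ∈ X ∧ (n : ℝ) / (Real.log n) ^ (om n) ≤ S A B n := by
  obtain ⟨off, hoff, h0, hF⟩ := s_FBL (Pool.Agent.L7h41.SL.s_MOM2 s_MOM)
  obtain ⟨N, n, al, h, w, hO, hw0, hws, hwt, hwb⟩ :=
    s_OUT2' X hX off hoff h0 (1 / 200) (by norm_num) hF om hom
  have hN : StrictMono N := strictMono_nat_of_lt_succ fun t => by have := hO.lt t; omega
  obtain ⟨I, hI, hI2⟩ := s_LIM off hoff h0 (1 / 200) (by norm_num) N n h w (fun i => hN.id_le i)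
    hw0 hws hwt hwb
  obtain ⟨A, B, hA, hB, hAB, hfr⟩ := s_FINAL2 X off hoff h0 om N n al h w hO I hI hI2
  refine ⟨A, B, ⟨hA, hB, ?_⟩, hfr⟩
  rintro _ ⟨a, ha, b, hb, rfl⟩ _ ⟨a', ha', b', hb', rfl⟩ hne
  exact hAB a ha b hb a' ha' b' hb' hne

end Pool.Agent.L7h48.SL
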