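import Mathlib

/-!
# Project SL: sumsets, and the consequence for common upper bounds
-/

set_option autoImplicit false

open Finset Filter Topology

namespace Pool.Agent.L7h48.SL

/-- the sumset `A + B` -/
def sums (A B : Set ℕ) : Set ℕ := {s : ℕ | ∃ a ∈ A, ∃ b ∈ B, s = a + b}

/-- `A` and `B` are infinite and `A + B` is pairwise coprime -/
def Admissible (A B : Set ℕ) : Prop := A.Infinite ∧ B.Infinite ∧
  ∀ x ∈ sums A B, ∀ y ∈ sums A B, x ≠ y → Nat.Coprime x y

/-- the number of elements of `A + B` in `{1, …, n}` -/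
noncomputable def S (A B : Set ℕ) (n : ℕ) : ℕ := (sums A B ∩ Set.Icc 1 n).ncard

/-- the version with prescribed heights implies the bound for common upper bounds -/
theorem upper_of (H : ∀ om : ℕ → ℝ, Tendsto om atTop atTop → ∀ X : Set ℕ, X.Infinite →
      ∃ A B : Set ℕ, Admissible A B ∧
        ∃ᶠ n : ℕ in atTop, n ∈ X ∧ (n : ℝ) / (Real.log n) ^ (om n) ≤ S A B n)
    (g : ℕ → ℝ) (hg0 : ∀ n, 0 ≤ g n)
    (hg : ∀ A B : Set ℕ, Admissible A B → ∃ C : ℝ, ∀ᶠ n : ℕ in atTop, (S A B n : ℝ) ≤ C * g n) :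
    ∃ C : ℕ, ∀ᶠ n : ℕ in atTop, (n : ℝ) / (Real.log n) ^ C ≤ g n := by
  classical
  by_contra hcon
  push Not at hcon
  have hfr : ∀ k : ℕ, ∃ᶠ n : ℕ in atTop, g n < (n : ℝ) / (Real.log n) ^ k := by
    intro k
    refine (hcon k).mono ?_
    intro n hn
    exact hn
  obtain ⟨x, hx1, hx2⟩ : ∃ x : ℕ → ℕ, StrictMono x ∧
      ∀ k, g (x k) < (x k : ℝ) / (Real.log (x k)) ^ k :=
    Filter.extraction_forall_of_frequently hfr
  set om : ℕ → ℝ := fun n => (((range (n + 1)).filter (fun k => x k ≤ n)).card : ℝ) - 2 with hom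
  have hxk : ∀ k, k ≤ x k := fun k => hx1.id_le k
  have homx : ∀ k, om (x k) = (k : ℝ) - 1 := by
    intro k
    have h1 : (range (x k + 1)).filter (fun l => x l ≤ x k) = range (k + 1) := by
      ext l
      rw [Finset.mem_filter, Finset.mem_range, Finset.mem_range, hx1.le_iff_le]
      have := hxk k
      omega
    simp only [hom, h1, Finset.card_range]
    push_cast
    ring
  have homt : Tendsto om atTop atTop := by
    rw [tendsto_atTop_atTop]
    intro b
    obtain ⟨M, hM⟩ := exists_nat_ge (b + 2)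
    refine ⟨x M, fun n hn => ?_⟩
    have h1 : range (M + 1) ⊆ (range (n + 1)).filter (fun k => x k ≤ n) := by
      intro l hl
      rw [Finset.mem_range] at hl
      rw [Finset.mem_filter, Finset.mem_range]
      have h2 : x l ≤ x M := hx1.monotone (by omega)
      have h3 := hxk l
      exact ⟨by omega, by omega⟩
    have h2 := Finset.card_le_card h1
    rw [Finset.card_range] at h2
    have h3 : ((M + 1 : ℕ) : ℝ) ≤ (((range (n + 1)).filter (fun k => x k ≤ n)).card : ℝ) := by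
      exact_mod_cast h2
    simp only [hom]
    push_cast at h3
    linarith
  obtain ⟨A, B, hAB, hfreq⟩ := H om homt (Set.range x) (Set.infinite_range_of_injective hx1.injective)
  obtain ⟨C, hC⟩ := hg A B hAB
  have hlog : Tendsto (fun Y : ℕ => Real.log (Y : ℝ)) atTop atTop :=
    Real.tendsto_log_atTop.comp tendsto_natCast_atTop_atTop
  obtain ⟨n, ⟨⟨k, rfl⟩, hn1⟩, hn2, hn3, hn4⟩ := (hfreq.and_eventually
    (hC.and ((hlog.eventually_ge_atTop (|C| + 1)).and (eventually_ge_atTop 2)))).exists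
  have hL0 : 0 < Real.log (x k) := by
    have := abs_nonneg C
    linarith
  have hx0 : (0 : ℝ) < (x k : ℝ) := by exact_mod_cast (by omega : 0 < x k)
  rw [homx k, Real.rpow_sub_one hL0.ne', Real.rpow_natCast] at hn1
  have h1 : (x k : ℝ) / ((Real.log (x k)) ^ k / Real.log (x k)) =
      Real.log (x k) * ((x k : ℝ) / (Real.log (x k)) ^ k) := by
    field_simp
  rw [h1] at hn1
  have h2 : C * g (x k) ≤ (|C| + 1) * g (x k) :=
    mul_le_mul_of_nonneg_right (by linarith [le_abs_self C]) (hg0 _)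
  have h3 : (|C| + 1) * g (x k) < (|C| + 1) * ((x k : ℝ) / (Real.log (x k)) ^ k) :=
    mul_lt_mul_of_pos_left (hx2 k) (by positivity)
  have h4 : (|C| + 1) * ((x k : ℝ) / (Real.log (x k)) ^ k) ≤
      Real.log (x k) * ((x k : ℝ) / (Real.log (x k)) ^ k) :=
    mul_le_mul_of_nonneg_right hn3 (by positivity)
  linarith

/-- if there is a largest order, some admissible pair attains it, up to a power of `log n` below `n` -/
theorem largest_of (H : ∀ om : ℕ → ℝ, Tendsto om atTop atTop → ∀ X : Set ℕ, X.Infinite →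
      ∃ A B : Set ℕ, Admissible A B ∧
        ∃ᶠ n : ℕ in atTop, n ∈ X ∧ (n : ℝ) / (Real.log n) ^ (om n) ≤ S A B n)
    (g : ℕ → ℝ) (hg0 : ∀ n, 0 ≤ g n)
    (hg : ∀ A B : Set ℕ, Admissible A B → ∃ C : ℝ, ∀ᶠ n : ℕ in atTop, (S A B n : ℝ) ≤ C * g n)
    (hatt : ∃ A B : Set ℕ, Admissible A B ∧ ∃ C : ℝ, ∀ᶠ n : ℕ in atTop, g n ≤ C * S A B n) :
    ∃ A B : Set ℕ, Admissible A B ∧
      ∃ C : ℕ, ∀ᶠ n : ℕ in atTop, (n : ℝ) / (Real.log n) ^ C ≤ S A B n := by
  obtain ⟨C, hC⟩ := upper_of H g hg0 hg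
  obtain ⟨A, B, hAB, C', hC'⟩ := hatt
  refine ⟨A, B, hAB, C + 1, ?_⟩
  have hlog : Tendsto (fun Y : ℕ => Real.log (Y : ℝ)) atTop atTop :=
    Real.tendsto_log_atTop.comp tendsto_natCast_atTop_atTop
  filter_upwards [hC, hC', hlog.eventually_ge_atTop (|C'| + 1)] with n h1 h2 h3
  have hL0 : 0 < Real.log (n : ℝ) := by
    have := abs_nonneg C'
    linarith
  have hS0 : (0 : ℝ) ≤ S A B n := Nat.cast_nonneg _
  have h4 : C' * (S A B n : ℝ) ≤ Real.log n * S A B n :=
    mul_le_mul_of_nonneg_right (by linarith [le_abs_self C']) hS0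
  rw [pow_succ, ← div_div, div_le_iff₀ hL0]
  linarith

end Pool.Agent.L7h48.SL
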