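import Pool.Agent.L7h48.SL.Stm

/-!
# Project SL (MP_ebae08_nt): the version with prescribed heights

As `Stm`, but the heights come from a given infinite set `XX`.
-/

set_option autoImplicit false

open Finset Filter Topology

namespace Pool.Agent.L7h48.SL

open Classical in
/-- what one stage gives: `n` is the height, `w` the weights; an element of `XX` lies in `[2 n, 4 n]` -/
structure Step2 (XX : Set ℕ) (off : ℕ → ℕ) (c : ℝ) (om : ℕ → ℝ) (i : ℕ) (s s' : St) (n : ℕ) (w : ℕ → ℝ) :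
    Prop where
  alExt : ∀ p ≤ s.N, s'.al p = s.al p
  alNew : ∀ p, p.Prime → s.N < p → p ≤ s'.N → 1 ≤ s'.al p ∧ 2 * s'.al p < p
  hExt : ∀ j < off i, s'.h j = s.h j
  hNew : ∀ j, off i ≤ j → j < off (i + 1) → s.N < s'.h j ∧
    ∀ p, p.Prime → p ≤ s.N → s'.h j ≡ s.al p [MOD p]
  lt : s.N < n ∧ 2 * n ≤ s'.N
  xx : ∃ x ∈ XX, 2 * n ≤ x ∧ x ≤ 4 * n
  w0 : ∀ b, 0 ≤ w b
  wsupp : ∀ b, w b ≠ 0 → s.N < b ∧ b ≤ n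
  wtot : ∑ b ∈ range (n + 1), w b ≤ 2
  wblk : ∀ t < i + 1, c ≤ ∑ b ∈ (range (n + 1)).filter
    (fun b => ∃ j ∈ Ico (off t) (off (t + 1)), (b + s'.h j).Prime), w b
  cnt : ∀ F ⊆ range (off (i + 1)),
    1 / ((i : ℝ) + 2) ≤ ∑ b ∈ (range (n + 1)).filter (fun b => ∀ j ∈ F, (b + s'.h j).Prime), w b →
    ∃ T : Finset ℕ, (∀ b ∈ T, s.N < b ∧ b ≤ n ∧ (∀ j ∈ F, (b + s'.h j).Prime) ∧
      ∀ p, p.Prime → p ≤ s'.N → ¬ p ∣ b + s'.al p) ∧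
      ∀ m : ℕ, n ≤ m → m ≤ 4 * n → (m : ℝ) / (Real.log m) ^ (om m) ≤ T.card

/-- NUM2: the numerical choice of the height `X` -/
def S_NUM2 : Prop := ∀ (om : ℕ → ℝ), Tendsto om atTop atTop → ∀ (Q u C M : ℕ) (c θ : ℝ), 1 ≤ Q → 0 < c → 0 < θ →
  ∀ᶠ X : ℕ in atTop, ∀ m : ℕ, Q * X + u ≤ m → m ≤ 4 * (Q * X + u) →
    (m : ℝ) / (Real.log m) ^ (om m) ≤
      θ ^ 2 * X / (Real.log X) ^ C * (c / (Real.log ((4 * (Q * X + u) : ℕ) : ℝ)) ^ M)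

/-- HT: the choice of `X` from the set of heights -/
def S_HT : Prop := ∀ (XX : Set ℕ), XX.Infinite → ∀ (Q u : ℕ), 1 ≤ Q → ∀ P : ℕ → Prop, (∀ᶠ X : ℕ in atTop, P X) →
  ∃ X : ℕ, P X ∧ ∃ x ∈ XX, 2 * (Q * X + u) ≤ x ∧ x ≤ 4 * (Q * X + u)

/-- STEP2: one stage -/
def S_STEP2 : Prop := ∀ (XX : Set ℕ), XX.Infinite → ∀ (off : ℕ → ℕ), StrictMono off → off 0 = 0 →
  ∀ c : ℝ, 0 < c → FBL off c →
  ∀ (om : ℕ → ℝ), Tendsto om atTop atTop → ∀ (i : ℕ) (s : St), Inv off i s →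
  ∃ (s' : St) (n : ℕ) (w : ℕ → ℝ), Inv off (i + 1) s' ∧ Step2 XX off c om i s s' n w

/-- SEQ2: all stages -/
def S_SEQ2 : Prop := ∀ (XX : Set ℕ), XX.Infinite → ∀ (off : ℕ → ℕ), StrictMono off → off 0 = 0 →
  ∀ c : ℝ, 0 < c → FBL off c →
  ∀ (om : ℕ → ℝ), Tendsto om atTop atTop →
  ∃ (s : ℕ → St) (n : ℕ → ℕ) (w : ℕ → ℕ → ℝ), ∀ i, Inv off i (s i) ∧
    Step2 XX off c om i (s i) (s (i + 1)) (n i) (w i)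

open Classical in
/-- the outcome of the construction in terms of the limits of the sequences -/
structure Out2 (XX : Set ℕ) (off : ℕ → ℕ) (om : ℕ → ℝ) (N n : ℕ → ℕ) (al h : ℕ → ℕ) (w : ℕ → ℕ → ℝ) :
    Prop where
  lt : ∀ i, N i < n i ∧ 2 * n i ≤ N (i + 1)
  xx : ∀ i, ∃ x ∈ XX, 2 * n i ≤ x ∧ x ≤ 4 * n i
  hle : ∀ i, ∀ j < off i, h j ≤ N i
  hinj : ∀ j k, h j = h k → j = k
  hmod : ∀ i, ∀ j, off i ≤ j → ∀ p, p.Prime → p ≤ N i → h j ≡ al p [MOD p]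
  cnt : ∀ i, ∀ F ⊆ range (off (i + 1)),
    1 / ((i : ℝ) + 2) ≤ ∑ b ∈ (range (n i + 1)).filter (fun b => ∀ j ∈ F, (b + h j).Prime), w i b →
    ∃ T : Finset ℕ, (∀ b ∈ T, N i < b ∧ b ≤ n i ∧ (∀ j ∈ F, (b + h j).Prime) ∧
      ∀ p, p.Prime → ¬ p ∣ b + al p) ∧
      ∀ m : ℕ, n i ≤ m → m ≤ 4 * n i → (m : ℝ) / (Real.log m) ^ (om m) ≤ T.card

open Classical in
/-- OUT2 -/
def S_OUT2 : Prop := ∀ (XX : Set ℕ), XX.Infinite → ∀ (off : ℕ → ℕ), StrictMono off → off 0 = 0 →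
  ∀ c : ℝ, 0 < c → FBL off c →
  ∀ (om : ℕ → ℝ), Tendsto om atTop atTop →
  ∃ (N n al h : ℕ → ℕ) (w : ℕ → ℕ → ℝ), Out2 XX off om N n al h w ∧
    (∀ i b, 0 ≤ w i b) ∧ (∀ i b, w i b ≠ 0 → N i < b ∧ b ≤ n i) ∧ (∀ i, ∑ b ∈ range (n i + 1), w i b ≤ 2) ∧
    ∀ i, ∀ t < i + 1, c ≤ ∑ b ∈ (range (n i + 1)).filter
      (fun b => ∃ j ∈ Ico (off t) (off (t + 1)), (b + h j).Prime), w i b

open Classical in
/-- FINAL2: the final sets -/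
def S_FINAL2 : Prop := ∀ (XX : Set ℕ), ∀ (off : ℕ → ℕ), StrictMono off → off 0 = 0 → ∀ (om : ℕ → ℝ),
  ∀ (N n al h : ℕ → ℕ) (w : ℕ → ℕ → ℝ), Out2 XX off om N n al h w →
    ∀ I : Set ℕ, I.Infinite → (∀ F : Finset ℕ, (∀ j ∈ F, j ∈ I) → ∃ᶠ i : ℕ in atTop,
      1 / ((i : ℝ) + 2) ≤ ∑ b ∈ (range (n i + 1)).filter (fun b => ∀ j ∈ F, (b + h j).Prime), w i b) →
    ∃ A B : Set ℕ, A.Infinite ∧ B.Infinite ∧
      (∀ a ∈ A, ∀ b ∈ B, ∀ a' ∈ A, ∀ b' ∈ B, a + b ≠ a' + b' → Nat.Coprime (a + b) (a' + b')) ∧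
      ∃ᶠ m : ℕ in atTop, m ∈ XX ∧ (m : ℝ) / (Real.log m) ^ (om m) ≤
        (({s : ℕ | ∃ a ∈ A, ∃ b ∈ B, s = a + b} ∩ Set.Icc 1 m).ncard : ℝ)

end Pool.Agent.L7h48.SL
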